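import Pool.Agent.Q13.UN.Per

/-!
Orbits of commuting polynomial maps.
-/

set_option autoImplicit false

namespace Pool.Agent.Q13.UN

open MvPolynomial Filter Pool.Agent.TH143.HE Pool.Agent.Q13.KO

variable {k : Type} [Field k] {M N s : ℕ} {ι : Type}

theorem line_orb {L : Type} [Field L] [Algebra k L] {T : Fin s → ι → MvPolynomial ι k}
    {u : (Fin s → ℕ) → ι → L}
    (hu : ∀ n a, u (n + Pi.single a 1) = fun i => aeval (u n) (T a i)) (n : Fin s → ℕ) (a : Fin s)
    (t : ℕ) : u (Function.update n a t) = orb (T a) (u (Function.update n a 0)) t := by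
  induction t with
  | zero => rfl
  | succ t ih =>
    have h1 : Function.update n a (t + 1) = Function.update n a t + Pi.single a 1 := by
      funext b
      by_cases hb : b = a
      · subst hb
        simp
      · simp [Function.update_of_ne hb, Pi.single_eq_of_ne hb]
    rw [h1, hu, ih]
    rfl

/-- **Commuting maps.** -/
theorem multi_gen {I I' : Ideal (MvPolynomial (Fin (N + 1)) k)}
    (T : Fin s → ι → MvPolynomial ι k) (ψ : Fin (N + 1) → MvPolynomial ι k)
    (h : ∀ a, ∃ t m0 p : ℕ, 0 < p ∧ ∀ (L : Type) [Field L] [Algebra k L] (v : ι → L),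
      (∀ m ≤ t, OffZ I I' (along (T a) ψ v m)) →
        ∀ m n, m0 ≤ m → m0 ≤ n → m ≡ n [MOD p] →
          ∀ i j, along (T a) ψ v m i * along (T a) ψ v n j =
            along (T a) ψ v m j * along (T a) ψ v n i) :
    ∃ m0 p : ℕ, 0 < p ∧ ∀ (L : Type) [Field L] [Algebra k L] (u : (Fin s → ℕ) → ι → L),
      (∀ n a, u (n + Pi.single a 1) = fun i => aeval (u n) (T a i)) →
      (∀ n, OffZ I I' fun j => aeval (u n) (ψ j)) →
      ∀ n n' : Fin s → ℕ, (∀ a, n a = n' a ∨ m0 ≤ n a ∧ m0 ≤ n' a ∧ n a ≡ n' a [MOD p]) →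
        ∀ i j, aeval (u n) (ψ i) * aeval (u n') (ψ j) = aeval (u n) (ψ j) * aeval (u n') (ψ i) := by
  classical
  choose t m p hp hU using h
  refine ⟨Finset.univ.sup m, ∏ a, p a, Finset.prod_pos fun a _ => hp a,
    fun L _ _ u hu hoff n n' hn => ?_⟩
  have h1 : ∀ (n : Fin s → ℕ) (a : Fin s) (b : ℕ), (n a = b ∨ Finset.univ.sup m ≤ n a ∧
      Finset.univ.sup m ≤ b ∧ n a ≡ b [MOD ∏ a, p a]) → ∀ i j,
      aeval (u n) (ψ i) * aeval (u (Function.update n a b)) (ψ j) =
        aeval (u n) (ψ j) * aeval (u (Function.update n a b)) (ψ i) := by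
    intro n a b hab i j
    rcases hab with hab | ⟨h2, h3, h4⟩
    · have h5 : Function.update n a b = n := by
        rw [← hab]
        exact Function.update_eq_self a n
      rw [h5, mul_comm]
    · have h5 : n = Function.update n a (n a) := (Function.update_eq_self a n).symm
      have h6 : ∀ c, u (Function.update n a c) = orb (T a) (u (Function.update n a 0)) c :=
        fun c => line_orb hu n a c
      have h7 := hU a L (u (Function.update n a 0)) (fun m' _ => by
        have h8 := hoff (Function.update n a m')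
        rw [h6] at h8
        exact h8) (n a) b ((Finset.le_sup (Finset.mem_univ a)).trans h2)
          ((Finset.le_sup (Finset.mem_univ a)).trans h3)
          (h4.of_dvd (Finset.dvd_prod_of_mem p (Finset.mem_univ a))) i j
      conv_lhs => rw [h5]
      conv_rhs => rw [h5]
      rw [Function.update_idem, h6 (n a), h6 b]
      exact h7
  have h2 : ∀ A : Finset (Fin s), ∀ i j, aeval (u n) (ψ i) *
      aeval (u fun a => if a ∈ A then n' a else n a) (ψ j) =
      aeval (u n) (ψ j) * aeval (u fun a => if a ∈ A then n' a else n a) (ψ i) := by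
    intro A
    induction A using Finset.induction_on with
    | empty =>
      intro i j
      simp only [Finset.notMem_empty, if_false]
      exact mul_comm _ _
    | insert a A ha ih =>
      have h3 : (fun b => if b ∈ insert a A then n' b else n b) =
          Function.update (fun b => if b ∈ A then n' b else n b) a (n' a) := by
        funext b
        by_cases hb : b = a
        · subst hb
          simp
        · simp [hb]
      rw [h3]
      refine cross_trans (hoff fun b => if b ∈ A then n' b else n b).ne ih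
        (h1 (fun b => if b ∈ A then n' b else n b) a (n' a) ?_)
      rw [if_neg ha]
      exact hn a
  have h3 := h2 Finset.univ
  simp only [Finset.mem_univ, if_true] at h3
  exact h3

theorem multi_of {I I' : Ideal (MvPolynomial (Fin (N + 1)) k)}
    (T : Fin s → Fin M → MvPolynomial (Fin M) k) (ψ : Fin (N + 1) → MvPolynomial (Fin M) k)
    (h : ∀ a, Unif I I' (T a) ψ ⊥) :
    ∃ m0 p : ℕ, 0 < p ∧ ∀ (L : Type) [Field L] [Algebra k L] (u : (Fin s → ℕ) → Fin M → L),
      (∀ n a, u (n + Pi.single a 1) = fun i => aeval (u n) (T a i)) →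
      (∀ n, OffZ I I' fun j => aeval (u n) (ψ j)) →
      ∀ n n' : Fin s → ℕ, (∀ a, n a = n' a ∨ m0 ≤ n a ∧ m0 ≤ n' a ∧ n a ≡ n' a [MOD p]) →
        ∀ i j, aeval (u n) (ψ i) * aeval (u n') (ψ j) = aeval (u n) (ψ j) * aeval (u n') (ψ i) :=
  multi_gen T ψ fun a => by
    obtain ⟨t, m0, p, hp, h1⟩ := h a
    refine ⟨t, m0, p, hp, fun L _ _ v hoff => h1 L v (fun g hg => ?_) hoff⟩
    rw [Ideal.mem_bot] at hg
    rw [hg, map_zero]

theorem multi [Countable k] [Algebra k ℂ] {I I' : Ideal (MvPolynomial (Fin (N + 1)) k)}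
    (h : SubGT (algebraMap k ℂ) I I') (T : Fin s → Fin M → MvPolynomial (Fin M) k)
    (ψ : Fin (N + 1) → MvPolynomial (Fin M) k) :
    ∃ m0 p : ℕ, 0 < p ∧ ∀ (L : Type) [Field L] [Algebra k L] (u : (Fin s → ℕ) → Fin M → L),
      (∀ n a, u (n + Pi.single a 1) = fun i => aeval (u n) (T a i)) →
      (∀ n, OffZ I I' fun j => aeval (u n) (ψ j)) →
      ∀ n n' : Fin s → ℕ, (∀ a, n a = n' a ∨ m0 ≤ n a ∧ m0 ≤ n' a ∧ n a ≡ n' a [MOD p]) →
        ∀ i j, aeval (u n) (ψ i) * aeval (u n') (ψ j) = aeval (u n) (ψ j) * aeval (u n') (ψ i) :=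
  multi_of T ψ fun a => unif h (T a) ψ ⊥

/-- the number of points -/
theorem multi_count {L : Type} [Field L] {x : (Fin s → ℕ) → Fin (N + 1) → L} {m0 p : ℕ} (hp : 0 < p)
    (hx : ∀ n, x n ≠ 0) (h : ∀ n n' : Fin s → ℕ,
      (∀ a, n a = n' a ∨ m0 ≤ n a ∧ m0 ≤ n' a ∧ n a ≡ n' a [MOD p]) →
        ∀ i j, x n i * x n' j = x n j * x n' i) :
    ∃ S : Finset (Fin (N + 1) → L), S.card ≤ (m0 + p) ^ s ∧ (∀ v ∈ S, v ≠ 0) ∧
      ∀ n, ∃ v ∈ S, ∀ i j, x n i * v j = x n j * v i := by
  classical
  refine ⟨(Fintype.piFinset fun _ : Fin s => Finset.range (m0 + p)).image x, ?_, ?_, fun n => ?_⟩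
  · refine Finset.card_image_le.trans ?_
    rw [Fintype.card_piFinset_const, Finset.card_range]
  · intro v hv
    obtain ⟨n, _, rfl⟩ := Finset.mem_image.1 hv
    exact hx n
  · obtain ⟨n', hn'⟩ : ∃ n' : Fin s → ℕ, n' = fun a => if n a < m0 then n a else
        m0 + (n a - m0) % p := ⟨_, rfl⟩
    have h1 : ∀ a, (n a - m0) % p < p := fun a => Nat.mod_lt _ hp
    refine ⟨x n', Finset.mem_image.2 ⟨n', Fintype.mem_piFinset.2 fun a => ?_, rfl⟩,
      h n n' fun a => ?_⟩
    · rw [Finset.mem_range, hn']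
      dsimp only
      have := h1 a
      split_ifs <;> omega
    · rw [hn']
      dsimp only
      by_cases ha : n a < m0
      · rw [if_pos ha]
        exact Or.inl rfl
      · rw [if_neg ha]
        refine Or.inr ⟨by omega, by omega, ?_⟩
        have h3 : n a = m0 + (n a - m0) := by omega
        conv_lhs => rw [h3]
        exact Nat.ModEq.add_left _ (Nat.mod_modEq _ _).symm

end Pool.Agent.Q13.UN
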