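import Mathlib

/-!
Embeddings of countable fields in the complex numbers over a countable subfield, and generic points
of affine varieties.
-/

set_option autoImplicit false

namespace Pool.Agent.Q13.UN

open MvPolynomial

theorem exists_emb (k K : Type) [Field k] [Countable k] [Field K] [Countable K] [Algebra k K]
    [Algebra k ℂ] : Nonempty (K →ₐ[k] ℂ) := by
  obtain ⟨s, hs⟩ := exists_isTranscendenceBasis k K
  obtain ⟨t, ht⟩ := exists_isTranscendenceBasis k ℂ
  have hcard : Cardinal.mk ℂ = Cardinal.mk t :=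
    IsAlgClosed.cardinal_eq_cardinal_transcendence_basis_of_aleph0_lt' _ ht
      Cardinal.mk_le_aleph0 (by rw [Cardinal.mk_complex]; exact Cardinal.aleph0_lt_continuum)
  have hle : Cardinal.mk s ≤ Cardinal.mk t := by
    rw [← hcard, Cardinal.mk_complex]
    exact Cardinal.mk_le_aleph0.trans Cardinal.aleph0_le_continuum
  obtain ⟨g⟩ := Cardinal.le_def _ _ |>.1 hle
  have hind : AlgebraicIndependent k (fun i : s => ((g i : t) : ℂ)) := ht.1.comp g g.injective
  let e : MvPolynomial s k ≃ₐ[k] Algebra.adjoin k (Set.range ((↑) : s → K)) := hs.1.aevalEquiv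
  let φ : Algebra.adjoin k (Set.range ((↑) : s → K)) →ₐ[k] ℂ :=
    (aeval fun i : s => ((g i : t) : ℂ)).comp e.symm.toAlgHom
  have hφ : Function.Injective φ := by
    have h1 : Function.Injective (aeval (R := k) fun i : s => ((g i : t) : ℂ)) := hind
    exact h1.comp e.symm.injective
  let _ : Algebra (Algebra.adjoin k (Set.range ((↑) : s → K))) ℂ := φ.toRingHom.toAlgebra
  have hst : IsScalarTower k (Algebra.adjoin k (Set.range ((↑) : s → K))) ℂ :=
    IsScalarTower.of_algebraMap_eq fun c => (φ.commutes c).symm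
  have hf : FaithfulSMul (Algebra.adjoin k (Set.range ((↑) : s → K))) ℂ :=
    (faithfulSMul_iff_algebraMap_injective _ _).2 hφ
  have halg := hs.isAlgebraic
  exact ⟨(IsAlgClosed.lift (R := Algebra.adjoin k (Set.range ((↑) : s → K))) (S := K)
    (M := ℂ)).restrictScalars k⟩

/-- **Generic points.** -/
theorem exists_generic {k : Type} [Field k] [Countable k] [Algebra k ℂ] {M : ℕ}
    (J : Ideal (MvPolynomial (Fin M) k)) (hJ : J.IsPrime) :
    ∃ v : Fin M → ℂ, ∀ g : MvPolynomial (Fin M) k, aeval v g = 0 ↔ g ∈ J := by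
  have hdom : IsDomain (MvPolynomial (Fin M) k ⧸ J) := Ideal.Quotient.isDomain J
  have hc1 : Countable (MvPolynomial (Fin M) k) := by
    rw [← Cardinal.mk_le_aleph0_iff]
    refine MvPolynomial.cardinalMk_le_max.trans ?_
    exact max_le (max_le Cardinal.mk_le_aleph0 Cardinal.mk_le_aleph0) le_rfl
  have hc2 : Countable (MvPolynomial (Fin M) k ⧸ J) := Quotient.countable
  have hc3 : Countable (FractionRing (MvPolynomial (Fin M) k ⧸ J)) := by
    rw [← Cardinal.mk_le_aleph0_iff, FractionRing.cardinalMk]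
    exact Cardinal.mk_le_aleph0
  obtain ⟨φ⟩ := exists_emb k (FractionRing (MvPolynomial (Fin M) k ⧸ J))
  let θ : MvPolynomial (Fin M) k →ₐ[k] ℂ :=
    (φ.comp (IsScalarTower.toAlgHom k (MvPolynomial (Fin M) k ⧸ J)
      (FractionRing (MvPolynomial (Fin M) k ⧸ J)))).comp (Ideal.Quotient.mkₐ k J)
  refine ⟨fun i => θ (X i), fun g => ?_⟩
  have h1 : aeval (fun i => θ (X i)) g = θ g := by
    have h2 : (aeval fun i => θ (X i)) = θ := by
      ext i
      simp
    rw [h2]
  rw [h1]
  change φ (algebraMap _ _ (Ideal.Quotient.mk J g)) = 0 ↔ _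
  rw [map_eq_zero_iff φ φ.injective, map_eq_zero_iff _ (IsFractionRing.injective _ _),
    Ideal.Quotient.eq_zero_iff_mem]

end Pool.Agent.Q13.UN
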