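import Pool.Agent.Q13.UN.Prime
import Pool.Agent.Q13.KO.Split

/-!
Orbits all points of which are generic points of a variety of general type.
-/

set_option autoImplicit false

namespace Pool.Agent.Q13.UN

open MvPolynomial Pool.Agent.TH143.HE Pool.Agent.TH143.GT Pool.Agent.W602.GT Pool.Agent.Q13.KO
  Pool.Agent.Q13.DS

section retraction

variable {k E : Type} [Field k] [Field E] [Algebra k E] {n : ℕ}

theorem coeff_coefMap (c : E →ₗ[k] k) (H : MvPolynomial (Fin n) E) (e : Fin n →₀ ℕ) :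
    (coefMap c H).coeff e = c (H.coeff e) := by
  classical
  rw [coefMap, coeff_sum]
  simp only [coeff_monomial]
  rw [Finset.sum_ite_eq']
  split_ifs with h
  · rfl
  · rw [notMem_support_iff.1 h, map_zero]

theorem coefMap_add (c : E →ₗ[k] k) (G H : MvPolynomial (Fin n) E) :
    coefMap c (G + H) = coefMap c G + coefMap c H := by
  ext e
  rw [coeff_add, coeff_coefMap, coeff_coefMap, coeff_coefMap, coeff_add, map_add]

theorem coefMap_mul_map (c : E →ₗ[k] k) (g : MvPolynomial (Fin n) k) (H : MvPolynomial (Fin n) E) :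
    coefMap c (H * MvPolynomial.map (algebraMap k E) g) = coefMap c H * g := by
  classical
  ext e
  rw [coeff_coefMap, coeff_mul, coeff_mul, map_sum]
  refine Finset.sum_congr rfl fun a _ => ?_
  rw [coeff_map, coeff_coefMap, mul_comm, ← Algebra.smul_def, map_smul, smul_eq_mul, mul_comm]

theorem coefMap_mem (c : E →ₗ[k] k) {I : Ideal (MvPolynomial (Fin n) k)}
    {H : MvPolynomial (Fin n) E} (hH : H ∈ I.map (MvPolynomial.map (algebraMap k E))) :
    coefMap c H ∈ I := by
  have h0 : ∀ a : MvPolynomial (Fin n) E, coefMap c (a * H) ∈ I := by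
    unfold Ideal.map at hH
    induction hH using Submodule.span_induction with
    | mem x hx =>
      obtain ⟨g, hg, rfl⟩ := hx
      intro a
      rw [coefMap_mul_map]
      exact I.mul_mem_left _ hg
    | zero =>
      intro a
      have h1 : coefMap c (0 : MvPolynomial (Fin n) E) = 0 := by
        ext e
        rw [coeff_coefMap, coeff_zero, coeff_zero, map_zero]
      rw [mul_zero, h1]
      exact I.zero_mem
    | add x y _ _ hx hy =>
      intro a
      rw [mul_add, coefMap_add]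
      exact I.add_mem (hx a) (hy a)
    | smul b x _ ih =>
      intro a
      rw [smul_eq_mul, ← mul_assoc]
      exact ih _
  have h1 := h0 1
  rwa [one_mul] at h1

theorem mem_of_map {I : Ideal (MvPolynomial (Fin n) k)} {g : MvPolynomial (Fin n) k}
    (h : MvPolynomial.map (algebraMap k E) g ∈ I.map (MvPolynomial.map (algebraMap k E))) :
    g ∈ I := by
  obtain ⟨c, hc⟩ := LinearMap.exists_leftInverse_of_injective (Algebra.linearMap k E)
    (LinearMap.ker_eq_bot.2 (algebraMap k E).injective)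
  have h1 := coefMap_mem c h
  have h2 : coefMap c (MvPolynomial.map (algebraMap k E) g) = g := by
    ext e
    rw [coeff_coefMap, coeff_map]
    exact LinearMap.congr_fun hc (g.coeff e)
  rwa [h2] at h1

end retraction

variable {k : Type} [Field k] {M N : ℕ}

theorem aeval_orb_X (T : Fin M → MvPolynomial (Fin M) k) (m : ℕ) :
    aeval (orb T X m) = (aeval T : MvPolynomial (Fin M) k →ₐ[k] MvPolynomial (Fin M) k) ^ m := by
  induction m with
  | zero =>
    ext i
    simp [orb]
  | succ m ih =>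
    ext1 i
    rw [aeval_X, pow_succ]
    change aeval (orb T X m) (T i) = ((aeval T) ^ m) (aeval T (X i))
    rw [ih, aeval_X]

theorem univ_eq (T : Fin M → MvPolynomial (Fin M) k) (ψ : Fin (N + 1) → MvPolynomial (Fin M) k)
    (m : ℕ) (j : Fin (N + 1)) : univ T ψ m j =
      ((aeval T : MvPolynomial (Fin M) k →ₐ[k] MvPolynomial (Fin M) k) ^ m) (ψ j) := by
  rw [← aeval_orb_X]
  rfl

/-- the polynomials which vanish at the points of the orbit from the index `n` on -/
def tailI (J : Ideal (MvPolynomial (Fin M) k))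
    (φ : MvPolynomial (Fin M) k →ₐ[k] MvPolynomial (Fin M) k) (n : ℕ) :
    Ideal (MvPolynomial (Fin M) k) where
  carrier := {f | ∀ m, n ≤ m → (φ ^ m) f ∈ J}
  add_mem' := fun {a b} ha hb m hm => by
    rw [map_add]
    exact J.add_mem (ha m hm) (hb m hm)
  zero_mem' := fun m _ => by
    rw [map_zero]
    exact J.zero_mem
  smul_mem' := fun c a ha m hm => by
    rw [smul_eq_mul, map_mul]
    exact J.mul_mem_left _ (ha m hm)

/-- a product of elements of the other minimal primes -/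
theorem exists_other {R : Type} [CommRing R] {b q : Ideal R} (hfin : b.minimalPrimes.Finite)
    (hq : q ∈ b.minimalPrimes) : ∃ h ∉ q, ∀ q' ∈ b.minimalPrimes, q' ≠ q → h ∈ q' := by
  classical
  have h1 : ∀ q' ∈ b.minimalPrimes, q' ≠ q → ∃ h ∈ q', h ∉ q := by
    intro q' hq' hne
    by_contra hcon
    push Not at hcon
    have h2 : q' ≤ q := hcon
    exact hne (le_antisymm h2 (hq.2 ⟨hq'.1.1, hq'.1.2⟩ h2))
  have h2 : ∀ q' : Ideal R, ∃ h, h ∉ q ∧ (q' ∈ b.minimalPrimes → q' ≠ q → h ∈ q') := by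
    intro q'
    by_cases h3 : q' ∈ b.minimalPrimes ∧ q' ≠ q
    · obtain ⟨h, h4, h5⟩ := h1 q' h3.1 h3.2
      exact ⟨h, h5, fun _ _ => h4⟩
    · exact ⟨1, fun h4 => hq.1.1.ne_top ((Ideal.eq_top_iff_one _).2 h4),
        fun h4 h5 => absurd ⟨h4, h5⟩ h3⟩
  choose h hh1 hh2 using h2
  have hp : q.IsPrime := hq.1.1
  refine ⟨∏ q' ∈ hfin.toFinset.erase q, h q', ?_, fun q' hq' hne => ?_⟩
  · rw [hp.prod_mem_iff]
    push Not
    exact fun q' _ => hh1 q'
  · exact Ideal.mem_of_dvd _ (Finset.dvd_prod_of_mem h (Finset.mem_erase.2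
      ⟨hne, hfin.mem_toFinset.2 hq'⟩)) (hh2 q' hq' hne)

/-- minimal primes over an ideal which is stable under an endomorphism -/
theorem period_over {R : Type} [CommRing R] [IsNoetherianRing R] (b : Ideal R) (φ : R →+* R)
    (hφ : ∀ f, φ f ∈ b ↔ f ∈ b) :
    ∃ m, 0 < m ∧ ∀ q ∈ b.minimalPrimes, ∀ f, (φ ^ m) f ∈ q ↔ f ∈ q := by
  have hle : b ≤ b.comap φ := fun f hf => (hφ f).2 hf
  let s : R ⧸ b →+* R ⧸ b := Ideal.quotientMap b φ hle
  have hs : Function.Injective s := by
    refine Ideal.quotientMap_injective' (H := hle) fun f hf => ?_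
    exact (hφ f).1 hf
  obtain ⟨m, hm, h1⟩ := exists_period_primes s hs
  have hsp : ∀ (n : ℕ) (f : R), (s ^ n) (Ideal.Quotient.mk b f) = Ideal.Quotient.mk b ((φ ^ n) f) := by
    intro n
    induction n with
    | zero => exact fun f => rfl
    | succ n ih =>
      intro f
      rw [pow_succ, pow_succ]
      change (s ^ n) (s (Ideal.Quotient.mk b f)) = Ideal.Quotient.mk b ((φ ^ n) (φ f))
      rw [← ih]
      rfl
  refine ⟨m, hm, fun q hq f => ?_⟩
  rw [Ideal.minimalPrimes_eq_comap] at hq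
  obtain ⟨P, hP, rfl⟩ := hq
  change Ideal.Quotient.mk b ((φ ^ m) f) ∈ P ↔ Ideal.Quotient.mk b f ∈ P
  rw [← hsp]
  have h2 := h1 P hP
  conv_rhs => rw [← h2]
  rfl

theorem coe_pow (φ : MvPolynomial (Fin M) k →ₐ[k] MvPolynomial (Fin M) k) (m : ℕ)
    (f : MvPolynomial (Fin M) k) :
    ((φ : MvPolynomial (Fin M) k →+* MvPolynomial (Fin M) k) ^ m) f = (φ ^ m) f := by
  induction m generalizing f with
  | zero => rfl
  | succ m ih =>
    rw [pow_succ, pow_succ]
    exact ih _

/-- **Orbits of generic points.** -/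
theorem key [IsAlgClosed k] [Algebra k ℂ] {J : Ideal (MvPolynomial (Fin M) k)} (hJ : J.IsPrime)
    {T : Fin M → MvPolynomial (Fin M) k} {FF : Set (MvPolynomial (Fin (N + 1)) k)}
    (hFF : ∀ G ∈ FF, IsForm G) {F : Type} [Field F] [Algebra ℂ F] {w : ℕ} {y : Fin (N + 1) → F}
    (hy : FunField ((Ideal.span FF).map (MvPolynomial.map (algebraMap k ℂ))) 1 F w y)
    (hw : 0 < w) (hGT : GeneralType ℂ F w) {ψ : Fin (N + 1) → MvPolynomial (Fin M) k}
    (hψ : ∀ m G, IsForm G → (aeval (univ T ψ m) G ∈ J ↔ G ∈ Ideal.span FF)) :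
    ∃ p m0 : ℕ, 0 < p ∧ ∀ m, m0 ≤ m → ∀ i j,
      univ T ψ (m + p) i * univ T ψ m j - univ T ψ (m + p) j * univ T ψ m i ∈ J := by
  classical
  obtain ⟨φ, hφ⟩ : ∃ φ : MvPolynomial (Fin M) k →ₐ[k] MvPolynomial (Fin M) k, φ = aeval T :=
    ⟨_, rfl⟩
  have hun : ∀ m j, univ T ψ m j = (φ ^ m) (ψ j) := fun m j => by rw [hφ]; exact univ_eq T ψ m j
  have hunG : ∀ (m : ℕ) (G : MvPolynomial (Fin (N + 1)) k),
      aeval (univ T ψ m) G = (φ ^ m) (aeval ψ G) := by
    intro m G
    have h1 : univ T ψ m = fun j => (φ ^ m) (ψ j) := by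
      funext j
      rw [hun]
    have h2 := MvPolynomial.comp_aeval_apply (f := ψ) (φ ^ m) G
    rw [h1, h2]
  have hmono : Monotone (tailI J φ) := fun n n' h f hf m hm => hf m (h.trans hm)
  obtain ⟨n, hn⟩ := monotone_stabilizes_iff_noetherian.2
    (inferInstance : IsNoetherianRing (MvPolynomial (Fin M) k)) ⟨tailI J φ, hmono⟩
  obtain ⟨b, hb⟩ : ∃ b, b = tailI J φ n := ⟨_, rfl⟩
  have hbmem : ∀ f, f ∈ b ↔ ∀ m, n ≤ m → (φ ^ m) f ∈ J := fun f => by rw [hb]; exact Iff.rfl
  have hbφ : ∀ f, φ f ∈ b ↔ f ∈ b := by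
    intro f
    have h1 : tailI J φ n = tailI J φ (n + 1) := hn (n + 1) (Nat.le_succ n)
    constructor
    · intro h
      rw [hb, h1]
      intro m hm
      obtain ⟨m', rfl⟩ : ∃ m', m = m' + 1 := ⟨m - 1, by omega⟩
      have h2 := (hbmem _).1 h m' (by omega)
      rw [pow_succ]
      exact h2
    · intro h
      rw [hbmem]
      intro m hm
      have h2 := (hbmem _).1 h (m + 1) (by omega)
      rw [pow_succ] at h2
      exact h2
  have hrad : b.radical = b := by
    refine le_antisymm (fun f hf => ?_) Ideal.le_radical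
    obtain ⟨e, he⟩ := hf
    rw [hbmem] at he ⊢
    intro m hm
    have h1 := he m hm
    rw [map_pow] at h1
    exact hJ.mem_of_pow_mem _ h1
  have hfin := b.finite_minimalPrimes_of_isNoetherianRing (MvPolynomial (Fin M) k)
  have hall : ∀ f, (∀ q ∈ b.minimalPrimes, f ∈ q) → f ∈ b := by
    intro f hf
    rw [← hrad, ← Ideal.sInf_minimalPrimes, Ideal.mem_sInf]
    exact fun {q} hq => hf q hq
  obtain ⟨t, ht, hper⟩ := period_over b (φ : MvPolynomial (Fin M) k →+* MvPolynomial (Fin M) k) hbφ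
  have h1 : ∀ q ∈ b.minimalPrimes, ∃ e, 0 < e ∧ ∀ c i j,
      ((φ ^ t) ^ (e * c)) (ψ i) * ψ j - ((φ ^ t) ^ (e * c)) (ψ j) * ψ i ∈ q := by
    intro q hq
    have hqp : q.IsPrime := hq.1.1
    refine one_prime hqp (θ := φ ^ t) (fun g => ?_) hFF hy hw hGT fun G hG => ⟨fun h2 => ?_,
      fun h2 => ?_⟩
    · rw [← coe_pow]
      exact hper q hq g
    · by_contra hcon
      obtain ⟨h, hhq, hh⟩ := exists_other hfin hq
      apply hhq
      apply hq.1.2
      rw [hbmem]
      intro m hm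
      have h3 : aeval ψ G * h ∈ b := by
        refine hall _ fun q' hq' => ?_
        by_cases h4 : q' = q
        · rw [h4]
          exact q.mul_mem_right _ h2
        · exact q'.mul_mem_left _ (hh q' hq' h4)
      have h4 := (hbmem _).1 h3 m hm
      rw [map_mul, ← hunG] at h4
      exact (hJ.mem_or_mem h4).resolve_left fun h5 => hcon ((hψ m G hG).1 h5)
    · apply hq.1.2
      rw [hbmem]
      intro m _
      rw [← hunG]
      exact (hψ m G hG).2 h2
  choose! e he hc using h1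
  refine ⟨t * ∏ q ∈ hfin.toFinset, e q, n, Nat.mul_pos ht (Finset.prod_pos fun q hq =>
    he q (hfin.mem_toFinset.1 hq)), fun m hm i j => ?_⟩
  have h2 : ((φ ^ t) ^ (∏ q ∈ hfin.toFinset, e q)) (ψ i) * ψ j -
      ((φ ^ t) ^ (∏ q ∈ hfin.toFinset, e q)) (ψ j) * ψ i ∈ b := by
    refine hall _ fun q hq => ?_
    obtain ⟨c, hc'⟩ := Finset.dvd_prod_of_mem e (hfin.mem_toFinset.2 hq)
    rw [hc']
    exact hc q hq c i j
  have h3 := (hbmem _).1 h2 m hm
  rw [map_sub, map_mul, map_mul] at h3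
  have h4 : ∀ j, (φ ^ m) (((φ ^ t) ^ (∏ q ∈ hfin.toFinset, e q)) (ψ j)) =
      univ T ψ (m + t * ∏ q ∈ hfin.toFinset, e q) j := by
    intro j
    rw [hun, pow_add, ← pow_mul]
    rfl
  rw [h4, h4, ← hun, ← hun] at h3
  exact h3

end Pool.Agent.Q13.UN
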