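import Pool.Agent.Q13.UN.Emb
import Pool.Agent.Q13.KO.Gen
import Pool.Agent.Q13.KO.Orb

/-!
Uniform periodicity of the orbits of polynomial maps.
-/

set_option autoImplicit false

namespace Pool.Agent.Q13.UN

open MvPolynomial Filter Pool.Agent.TH143.DE Pool.Agent.TH143.HE Pool.Agent.TH143.TW
  Pool.Agent.TH143.GE Pool.Agent.Q13.KO

variable {k : Type} [Field k] {M N : ℕ} {ι : Type}

/-- The orbit of the point `v` under the polynomial map `T`. -/
noncomputable def orb {A : Type} [CommRing A] [Algebra k A] (T : ι → MvPolynomial ι k)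
    (v : ι → A) : ℕ → ι → A
  | 0 => v
  | m + 1 => fun i => aeval (orb T v m) (T i)

/-- The values of the tuple `ψ` of polynomials at the points of the orbit of `v` under `T`. -/
noncomputable def along {A : Type} [CommRing A] [Algebra k A]
    (T : ι → MvPolynomial ι k) (ψ : Fin (N + 1) → MvPolynomial ι k)
    (v : ι → A) (m : ℕ) : Fin (N + 1) → A := fun j => aeval (orb T v m) (ψ j)

variable {T : ι → MvPolynomial ι k} {ψ : Fin (N + 1) → MvPolynomial ι k}

theorem orb_map {A B : Type} [CommRing A] [Algebra k A] [CommRing B] [Algebra k B]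
    (f : A →ₐ[k] B) (v : ι → A) (m : ℕ) :
    (fun i => f (orb T v m i)) = orb T (fun i => f (v i)) m := by
  induction m with
  | zero => rfl
  | succ m ih =>
    funext i
    change f (aeval (orb T v m) (T i)) = aeval (orb T (fun i => f (v i)) m) (T i)
    rw [← ih]
    exact MvPolynomial.comp_aeval_apply (f := orb T v m) f (T i)

theorem along_map {A B : Type} [CommRing A] [Algebra k A] [CommRing B] [Algebra k B]
    (f : A →ₐ[k] B) (v : ι → A) (m : ℕ) (j : Fin (N + 1)) :
    f (along T ψ v m j) = along T ψ (fun i => f (v i)) m j := by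
  change f (aeval (orb T v m) (ψ j)) = aeval (orb T (fun i => f (v i)) m) (ψ j)
  rw [← orb_map]
  exact MvPolynomial.comp_aeval_apply (f := orb T v m) f (ψ j)

/-- the universal polynomials -/
noncomputable def univ (T : ι → MvPolynomial ι k)
    (ψ : Fin (N + 1) → MvPolynomial ι k) (m : ℕ) : Fin (N + 1) → MvPolynomial ι k :=
  along T ψ X m

theorem aeval_univ {A : Type} [CommRing A] [Algebra k A] (v : ι → A) (m : ℕ)
    (j : Fin (N + 1)) : aeval v (univ T ψ m j) = along T ψ v m j := by
  have h1 := along_map (T := T) (ψ := ψ) (aeval v) X m j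
  rw [univ, h1]
  congr 1
  funext i
  rw [aeval_X]

theorem aeval_along {A : Type} [CommRing A] [Algebra k A] (v : ι → A) (m : ℕ)
    (G : MvPolynomial (Fin (N + 1)) k) :
    aeval (along T ψ v m) G = aeval v (aeval (univ T ψ m) G) := by
  have h1 : along T ψ v m = fun j => aeval v (univ T ψ m j) :=
    funext fun j => (aeval_univ v m j).symm
  rw [h1]
  exact (MvPolynomial.comp_aeval_apply (f := univ T ψ m) (aeval v) G).symm

theorem isPtP_iff {A : Type} [CommRing A] [Algebra k A] {I : Ideal (MvPolynomial (Fin (N + 1)) k)}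
    {x : Fin (N + 1) → A} : IsPtP (algebraMap k A) I x ↔
      ∀ G ∈ I, (∃ d, G.IsHomogeneous d) → aeval x G = 0 := Iff.rfl

section complex

variable [Algebra k ℂ] {T : Fin M → MvPolynomial (Fin M) k}
  {ψ : Fin (N + 1) → MvPolynomial (Fin M) k}

theorem gg_orb (v : Fin M → ℂ) (G : MvPolynomial (Fin M) k) :
    gg (fun m => aeval (orb T v m) G) =
      aeval (fun i => gg fun m => orb T v m i) (MvPolynomial.map (algebraMap k ℂ) G) := by
  have h5 := MvPolynomial.comp_aeval_apply (f := fun i => (fun m => orb T v m i : ℕ → ℂ)) gg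
    (MvPolynomial.map (algebraMap k ℂ) G)
  rw [← h5]
  congr 1
  funext m
  have h7 := MvPolynomial.comp_aeval_apply (f := fun i => (fun m => orb T v m i : ℕ → ℂ))
    (Pi.evalAlgHom ℂ (fun _ : ℕ => ℂ) m) (MvPolynomial.map (algebraMap k ℂ) G)
  have h8 : (aeval (fun i => (fun m => orb T v m i : ℕ → ℂ))
      (MvPolynomial.map (algebraMap k ℂ) G) : ℕ → ℂ) m =
    aeval (fun i => orb T v m i) (MvPolynomial.map (algebraMap k ℂ) G) := h7
  rw [h8, aeval_map_algebraMap]

theorem stable_orb (v : Fin M → ℂ) : Stable fun i => gg fun m => orb T v m i := by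
  intro i
  rw [shG_gg]
  change gg (fun m => aeval (orb T v m) (T i)) ∈ _
  rw [gg_orb]
  exact AA_le _ (mem_AA.2 ⟨_, rfl⟩)

theorem rel_orb (v : Fin M → ℂ) : Rel (fun i => gg fun m => orb T v m i) (along T ψ v) := by
  intro j
  change gg (fun m => aeval (orb T v m) (ψ j)) ∈ _
  rw [gg_orb]
  exact mem_AA.2 ⟨_, rfl⟩

end complex

/-- The vector `x` over the field `L` represents a point of `X`, the zero set of the forms of `I`,
which does not lie in `Z`, the zero set of the forms of `I'`. -/
structure OffZ {L : Type} [Field L] [Algebra k L] (I I' : Ideal (MvPolynomial (Fin (N + 1)) k))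
    (x : Fin (N + 1) → L) : Prop where
  ne : x ≠ 0
  mem : IsPtP (algebraMap k L) I x
  out : ¬ IsPtP (algebraMap k L) I' x

/-- the conclusion: the points of all orbits in the zero set of `J` are periodic from the index
`m0` on if the first points are in `X` and not in `Z` -/
def Unif (I I' : Ideal (MvPolynomial (Fin (N + 1)) k)) (T : Fin M → MvPolynomial (Fin M) k)
    (ψ : Fin (N + 1) → MvPolynomial (Fin M) k) (J : Ideal (MvPolynomial (Fin M) k)) : Prop :=
  ∃ s m0 p : ℕ, 0 < p ∧ ∀ (L : Type) [Field L] [Algebra k L] (v : Fin M → L),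
    (∀ g ∈ J, aeval v g = 0) → (∀ m ≤ s, OffZ I I' (along T ψ v m)) →
      ∀ m n, m0 ≤ m → m0 ≤ n → m ≡ n [MOD p] →
        ∀ i j, along T ψ v m i * along T ψ v n j = along T ψ v m j * along T ψ v n i

theorem cross_trans {A : Type} [Field A] {x y z : Fin (N + 1) → A} (hy : y ≠ 0)
    (h1 : ∀ i j, x i * y j = x j * y i) (h2 : ∀ i j, y i * z j = y j * z i) (i j : Fin (N + 1)) :
    x i * z j = x j * z i := by
  obtain ⟨a, ha⟩ := Function.ne_iff.1 hy
  have ha' : y a ≠ 0 := ha
  have h3 : y a * (x i * z j - x j * z i) = 0 := by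
    linear_combination (h1 i a) * z j - (h1 j a) * z i + x a * h2 i j
  exact sub_eq_zero.1 ((mul_eq_zero.1 h3).resolve_left ha')

theorem sup_zero {L : Type} [Field L] [Algebra k L] {J : Ideal (MvPolynomial (Fin M) k)}
    {g : MvPolynomial (Fin M) k} {v : Fin M → L} (h1 : ∀ h ∈ J, aeval v h = 0)
    (h2 : aeval v g = 0) : ∀ h ∈ J ⊔ Ideal.span {g}, aeval v h = 0 := by
  have h3 : J ⊔ Ideal.span {g} ≤ RingHom.ker (aeval v : MvPolynomial (Fin M) k →ₐ[k] L) := by
    refine sup_le (fun h hh => h1 h hh) ?_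
    rw [Ideal.span_singleton_le_iff_mem]
    exact h2
  exact fun h hh => h3 hh

theorem lt_sup {R : Type} [CommRing R] {J : Ideal R} {g : R} (h : g ∉ J) :
    J < J ⊔ Ideal.span {g} := by
  refine lt_of_le_of_ne le_sup_left fun h1 => h ?_
  rw [h1]
  exact Ideal.mem_sup_right (Ideal.mem_span_singleton_self g)

/-- **Uniform periodicity.** -/
theorem unif [Countable k] [Algebra k ℂ] {I I' : Ideal (MvPolynomial (Fin (N + 1)) k)}
    (h : SubGT (algebraMap k ℂ) I I') (T : Fin M → MvPolynomial (Fin M) k)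
    (ψ : Fin (N + 1) → MvPolynomial (Fin M) k) (J : Ideal (MvPolynomial (Fin M) k)) :
    Unif I I' T ψ J := by
  refine IsNoetherian.induction (P := Unif I I' T ψ)
    (fun (J : Ideal (MvPolynomial (Fin M) k)) ih => ?_) J
  by_cases hJ : J.IsPrime
  · obtain ⟨v0, hv0⟩ := exists_generic J hJ
    have hz : ∀ {L : Type} [Field L] [Algebra k L] {v : Fin M → L}, (∀ g ∈ J, aeval v g = 0) →
        ∀ g : MvPolynomial (Fin M) k, aeval v0 g = 0 → aeval v g = 0 :=
      fun hv g hg => hv g ((hv0 g).1 hg)
    by_cases h1 : ∃ m, along T ψ v0 m = 0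
    · obtain ⟨m, hm⟩ := h1
      refine ⟨m, 0, 1, one_pos, fun L _ _ v hv hoff => ?_⟩
      exfalso
      apply (hoff m le_rfl).ne
      funext j
      rw [← aeval_univ]
      refine hz hv _ ?_
      rw [aeval_univ, hm]
      rfl
    by_cases h2 : ∃ m, ¬ IsPtP (algebraMap k ℂ) I (along T ψ v0 m)
    · obtain ⟨m, hm⟩ := h2
      rw [isPtP_iff] at hm
      push Not at hm
      obtain ⟨G, hG, hGh, hne⟩ := hm
      rw [aeval_along] at hne
      obtain ⟨s, m0, p, hp, h3⟩ := ih (J ⊔ Ideal.span {aeval (univ T ψ m) G})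
        (lt_sup fun h4 => hne ((hv0 _).2 h4))
      refine ⟨max m s, m0, p, hp, fun L _ _ v hv hoff => h3 L v (sup_zero hv ?_)
        fun m' hm' => hoff m' (hm'.trans (le_max_right _ _))⟩
      rw [← aeval_along]
      exact (hoff m (le_max_left _ _)).mem G hG hGh
    by_cases h3 : ∃ m, IsPtP (algebraMap k ℂ) I' (along T ψ v0 m)
    · obtain ⟨m, hm⟩ := h3
      refine ⟨m, 0, 1, one_pos, fun L _ _ v hv hoff => ?_⟩
      exfalso
      apply (hoff m le_rfl).out
      rw [isPtP_iff]
      intro G hG hGh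
      rw [aeval_along]
      refine hz hv _ ?_
      rw [← aeval_along]
      exact hm G hG hGh
    push Not at h1 h2 h3
    obtain ⟨p, m0, hp, hper⟩ := per_sub h _ _ (stable_orb (T := T) v0) (rel_orb (ψ := ψ) v0)
      (Eventually.of_forall h1) (Eventually.of_forall h2) (Eventually.of_forall h3)
    have h4 : ∀ q m, m0 ≤ m → ∀ i j, along T ψ v0 (m + p * q) i * along T ψ v0 m j =
        along T ψ v0 (m + p * q) j * along T ψ v0 m i := by
      intro q
      induction q with
      | zero =>
        intro m _ i j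
        rw [mul_zero, add_zero, mul_comm]
      | succ q ihq =>
        intro m hm i j
        have h5 := hper (m + p * q) (by omega)
        have h6 : m + p * (q + 1) = m + p * q + p := by ring
        rw [h6]
        exact cross_trans (h1 (m + p * q)) h5 (ihq m hm) i j
    have h5 : ∀ m n, m0 ≤ m → m ≤ n → m ≡ n [MOD p] → ∀ i j,
        along T ψ v0 n i * along T ψ v0 m j = along T ψ v0 n j * along T ψ v0 m i := by
      intro m n hm hmn hmod i j
      obtain ⟨q, hq⟩ := (Nat.modEq_iff_dvd' hmn).1 hmod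
      have h6 : n = m + p * q := by omega
      rw [h6]
      exact h4 q m hm i j
    refine ⟨0, m0, p, hp, fun L _ _ v hv _ m n hm hn hmod i j => ?_⟩
    have h6 : along T ψ v0 m i * along T ψ v0 n j = along T ψ v0 m j * along T ψ v0 n i := by
      rcases le_total m n with h7 | h7
      · have h8 := h5 m n hm h7 hmod i j
        linear_combination -h8
      · exact h5 n m hn h7 hmod.symm i j
    have h7 := hz hv (univ T ψ m i * univ T ψ n j - univ T ψ m j * univ T ψ n i) (by
      rw [map_sub, map_mul, map_mul, aeval_univ, aeval_univ, aeval_univ, aeval_univ, h6, sub_self])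
    rw [map_sub, map_mul, map_mul, aeval_univ, aeval_univ, aeval_univ, aeval_univ] at h7
    exact sub_eq_zero.1 h7
  · by_cases hT : J = ⊤
    · refine ⟨0, 0, 1, one_pos, fun L _ _ v hv => ?_⟩
      have h1 := hv 1 (by rw [hT]; trivial)
      rw [map_one] at h1
      exact absurd h1 one_ne_zero
    · have h1 : ∃ a b, a * b ∈ J ∧ a ∉ J ∧ b ∉ J := by
        by_contra hcon
        push Not at hcon
        refine hJ ⟨hT, fun {a b} hab => ?_⟩
        by_cases ha : a ∈ J
        · exact Or.inl ha
        · exact Or.inr (hcon a b hab ha)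
      obtain ⟨a, b, hab, ha, hb⟩ := h1
      obtain ⟨s1, m1, p1, hp1, h2⟩ := ih _ (lt_sup ha)
      obtain ⟨s2, m2, p2, hp2, h3⟩ := ih _ (lt_sup hb)
      refine ⟨max s1 s2, max m1 m2, p1 * p2, Nat.mul_pos hp1 hp2,
        fun L _ _ v hv hoff m n hm hn hmod => ?_⟩
      have h4 := hv _ hab
      rw [map_mul] at h4
      rcases mul_eq_zero.1 h4 with h5 | h5
      · exact h2 L v (sup_zero hv h5) (fun m' hm' => hoff m' (hm'.trans (le_max_left _ _))) m n
          ((le_max_left _ _).trans hm) ((le_max_left _ _).trans hn) (hmod.of_mul_right _)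
      · exact h3 L v (sup_zero hv h5) (fun m' hm' => hoff m' (hm'.trans (le_max_right _ _))) m n
          ((le_max_right _ _).trans hm) ((le_max_right _ _).trans hn) (hmod.of_mul_left _)

theorem orb_equiv {ι' A : Type} [CommRing A] [Algebra k A] (e : ι ≃ ι')
    (T : ι → MvPolynomial ι k) (v : ι → A) (m : ℕ) :
    orb (fun i' => rename e (T (e.symm i'))) (fun i' => v (e.symm i')) m =
      fun i' => orb T v m (e.symm i') := by
  induction m with
  | zero => rfl
  | succ m ih =>
    funext i'
    change aeval (orb (fun i' => rename e (T (e.symm i'))) (fun i' => v (e.symm i')) m)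
      (rename e (T (e.symm i'))) = aeval (orb T v m) (T (e.symm i'))
    rw [ih, aeval_rename]
    congr 2
    funext i
    simp

/-- arbitrary finite sets of variables -/
theorem all_of {I I' : Ideal (MvPolynomial (Fin (N + 1)) k)} (T : ι → MvPolynomial ι k)
    (ψ : Fin (N + 1) → MvPolynomial ι k) (e : ι ≃ Fin M)
    (h : Unif I I' (fun i' => rename e (T (e.symm i'))) (fun j => rename e (ψ j)) ⊥) :
    ∃ s m0 p : ℕ, 0 < p ∧ ∀ (L : Type) [Field L] [Algebra k L] (v : ι → L),
      (∀ m ≤ s, OffZ I I' (along T ψ v m)) →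
        ∀ m n, m0 ≤ m → m0 ≤ n → m ≡ n [MOD p] →
          ∀ i j, along T ψ v m i * along T ψ v n j = along T ψ v m j * along T ψ v n i := by
  obtain ⟨s, m0, p, hp, h1⟩ := h
  refine ⟨s, m0, p, hp, fun L _ _ v hoff => ?_⟩
  have h2 : ∀ m, along (fun i' => rename e (T (e.symm i'))) (fun j => rename e (ψ j))
      (fun i' => v (e.symm i')) m = along T ψ v m := by
    intro m
    funext j
    change aeval (orb (fun i' => rename e (T (e.symm i'))) (fun i' => v (e.symm i')) m)
      (rename e (ψ j)) = aeval (orb T v m) (ψ j)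
    rw [orb_equiv, aeval_rename]
    congr 2
    funext i
    simp
  have h3 := h1 L (fun i' => v (e.symm i')) (by
    intro g hg
    rw [Ideal.mem_bot] at hg
    rw [hg, map_zero]) (fun m hm => by
    rw [h2]
    exact hoff m hm)
  intro m n hm hn hmod i j
  have h4 := h3 m n hm hn hmod i j
  rwa [h2, h2] at h4

/-- uniform periodicity, for arbitrary finite sets of variables -/
theorem unif_all [Countable k] [Algebra k ℂ] [Finite ι] {I I' : Ideal (MvPolynomial (Fin (N + 1)) k)}
    (h : SubGT (algebraMap k ℂ) I I') (T : ι → MvPolynomial ι k)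
    (ψ : Fin (N + 1) → MvPolynomial ι k) :
    ∃ s m0 p : ℕ, 0 < p ∧ ∀ (L : Type) [Field L] [Algebra k L] (v : ι → L),
      (∀ m ≤ s, OffZ I I' (along T ψ v m)) →
        ∀ m n, m0 ≤ m → m0 ≤ n → m ≡ n [MOD p] →
          ∀ i j, along T ψ v m i * along T ψ v n j = along T ψ v m j * along T ψ v n i := by
  obtain ⟨M, ⟨e⟩⟩ := Finite.exists_equiv_fin ι
  exact all_of T ψ e (unif h _ _ ⊥)

end Pool.Agent.Q13.UN
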