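import Pool.Agent.Q13.UN.Per
import Pool.Agent.Q13.DS.Desc
import Pool.Agent.Q13.KO.Main

/-!
The theorem of Kobayashi and Ochiai for endomorphisms of affine varieties over a countable
algebraically closed field.
-/

set_option autoImplicit false

namespace Pool.Agent.Q13.UN

open MvPolynomial Pool.Agent.TH143.HE Pool.Agent.TH143.GT Pool.Agent.W602.GT Pool.Agent.Q13.KO
  Pool.Agent.Q13.DS

variable {k : Type} [Field k] [Algebra k ℂ] {M N : ℕ}

/-- the ideal over `ℂ` generated by the ideal `Q` -/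
noncomputable def extC (Q : Ideal (MvPolynomial (Fin M) k)) : Ideal (MvPolynomial (Fin M) ℂ) :=
  Q.map (MvPolynomial.map (algebraMap k ℂ))

theorem eval_cast (P : Fin M → k) (g : MvPolynomial (Fin M) k) :
    eval (fun i => algebraMap k ℂ (P i)) (MvPolynomial.map (algebraMap k ℂ) g) =
      algebraMap k ℂ (eval P g) := by
  rw [eval_map]
  exact (eval₂_comp_left (algebraMap k ℂ) (RingHom.id k) P g).symm

omit [Algebra k ℂ] in
theorem nullst [IsAlgClosed k] {Q : Ideal (MvPolynomial (Fin M) k)} (hQ : Q.IsPrime)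
    {g : MvPolynomial (Fin M) k} (hg : g ∉ Q) :
    ∃ P : Fin M → k, (∀ h ∈ Q, eval P h = 0) ∧ eval P g ≠ 0 := by
  by_contra hcon
  push Not at hcon
  apply hg
  rw [← MvPolynomial.IsPrime.vanishingIdeal_zeroLocus (K := k) Q]
  intro P hP
  rw [MvPolynomial.aeval_eq_eval]
  refine hcon P fun h hh => ?_
  have h1 := hP h hh
  rwa [MvPolynomial.aeval_eq_eval] at h1

theorem zero_of_extC {Q : Ideal (MvPolynomial (Fin M) k)} {f : MvPolynomial (Fin M) ℂ}
    (hf : f ∈ extC Q) {P : Fin M → k} (hP : ∀ h ∈ Q, eval P h = 0) :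
    eval (fun i => algebraMap k ℂ (P i)) f = 0 := by
  have h1 : extC Q ≤ RingHom.ker (eval (fun i => algebraMap k ℂ (P i))) := by
    rw [extC, Ideal.map_le_iff_le_comap]
    intro h hh
    change eval (fun i => algebraMap k ℂ (P i)) (MvPolynomial.map (algebraMap k ℂ) h) = 0
    rw [eval_cast, hP h hh, map_zero]
  exact h1 hf

theorem mem_extC_iff [IsAlgClosed k] {Q : Ideal (MvPolynomial (Fin M) k)} (hQ : Q.IsPrime)
    {f : MvPolynomial (Fin M) ℂ} : f ∈ extC Q ↔
      ∀ P : Fin M → k, (∀ h ∈ Q, eval P h = 0) → eval (fun i => algebraMap k ℂ (P i)) f = 0 := by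
  constructor
  · exact fun hf P hP => zero_of_extC hf hP
  · intro h
    by_contra hcon
    obtain ⟨c, hc⟩ := descend Q f hcon
    obtain ⟨P, hP, hne⟩ := nullst hQ hc
    rw [eval_coefMap, h P hP, map_zero] at hne
    exact hne rfl

theorem extC_prime [IsAlgClosed k] {Q : Ideal (MvPolynomial (Fin M) k)} (hQ : Q.IsPrime) :
    (extC Q).IsPrime := by
  refine ⟨fun h => ?_, fun {f g} hfg => ?_⟩
  · have h1 : (1 : MvPolynomial (Fin M) ℂ) ∈ extC Q := by rw [h]; trivial
    obtain ⟨P, hP, _⟩ := nullst hQ (fun h2 : (1 : MvPolynomial (Fin M) k) ∈ Q =>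
      hQ.ne_top ((Ideal.eq_top_iff_one _).2 h2))
    have h2 := zero_of_extC h1 hP
    rw [map_one] at h2
    exact one_ne_zero h2
  · by_contra hcon
    rw [not_or] at hcon
    obtain ⟨c, hc⟩ := descend Q f hcon.1
    obtain ⟨d, hd⟩ := descend Q g hcon.2
    have h1 : coefMap c f * coefMap d g ∉ Q := fun h => (hQ.mem_or_mem h).elim hc hd
    obtain ⟨P, hP, hne⟩ := nullst hQ h1
    rw [map_mul, eval_coefMap, eval_coefMap] at hne
    have h2 := zero_of_extC hfg hP
    rw [map_mul] at h2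
    rcases mul_eq_zero.1 h2 with h3 | h3
    · rw [h3, map_zero, zero_mul] at hne
      exact hne rfl
    · rw [h3, map_zero, mul_zero] at hne
      exact hne rfl

theorem mem_of_extC [IsAlgClosed k] {Q : Ideal (MvPolynomial (Fin M) k)} (hQ : Q.IsPrime)
    {g : MvPolynomial (Fin M) k} (hg : MvPolynomial.map (algebraMap k ℂ) g ∈ extC Q) : g ∈ Q := by
  by_contra hcon
  obtain ⟨P, hP, hne⟩ := nullst hQ hcon
  have h1 := zero_of_extC hg hP
  rw [eval_cast, map_eq_zero] at h1
  exact hne h1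

/-- the endomorphism over `ℂ` -/
noncomputable def endC (θ : MvPolynomial (Fin M) k →ₐ[k] MvPolynomial (Fin M) k) :
    MvPolynomial (Fin M) ℂ →ₐ[ℂ] MvPolynomial (Fin M) ℂ :=
  aeval fun i => MvPolynomial.map (algebraMap k ℂ) (θ (X i))

theorem endC_map (θ : MvPolynomial (Fin M) k →ₐ[k] MvPolynomial (Fin M) k)
    (g : MvPolynomial (Fin M) k) : endC θ (MvPolynomial.map (algebraMap k ℂ) g) =
      MvPolynomial.map (algebraMap k ℂ) (θ g) := by
  have h1 : ((endC θ : MvPolynomial (Fin M) ℂ →+* MvPolynomial (Fin M) ℂ).comp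
      (MvPolynomial.map (algebraMap k ℂ))) = (MvPolynomial.map (algebraMap k ℂ)).comp
        (θ : MvPolynomial (Fin M) k →+* MvPolynomial (Fin M) k) := by
    apply MvPolynomial.ringHom_ext
    · intro c
      have h2 : θ (C c) = C c := θ.commutes c
      simp only [RingHom.comp_apply, map_C, RingHom.coe_coe, h2]
      exact (endC θ).commutes _
    · intro i
      simp only [RingHom.comp_apply, map_X, RingHom.coe_coe]
      exact aeval_X _ i
  exact congrArg (fun f : MvPolynomial (Fin M) k →+* MvPolynomial (Fin M) ℂ => f g) h1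

theorem eval_endC (θ : MvPolynomial (Fin M) k →ₐ[k] MvPolynomial (Fin M) k) (P : Fin M → k)
    (f : MvPolynomial (Fin M) ℂ) : eval (fun i => algebraMap k ℂ (P i)) (endC θ f) =
      eval (fun i => algebraMap k ℂ (eval P (θ (X i)))) f := by
  have h1 := MvPolynomial.comp_aeval_apply (f := fun i => MvPolynomial.map (algebraMap k ℂ)
    (θ (X i))) (aeval fun i => algebraMap k ℂ (P i)) f
  rw [← MvPolynomial.aeval_eq_eval, ← MvPolynomial.aeval_eq_eval]
  refine h1.trans ?_
  congr 2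
  funext i
  rw [MvPolynomial.aeval_eq_eval, eval_cast]

omit [Algebra k ℂ] in
theorem eval_end (θ : MvPolynomial (Fin M) k →ₐ[k] MvPolynomial (Fin M) k) (P : Fin M → k)
    (f : MvPolynomial (Fin M) k) : eval P (θ f) = eval (fun i => eval P (θ (X i))) f := by
  have h1 : θ = aeval fun i => θ (X i) := by
    ext i
    simp
  have h2 := MvPolynomial.comp_aeval_apply (f := fun i => θ (X i)) (aeval P) f
  rw [← MvPolynomial.aeval_eq_eval, ← MvPolynomial.aeval_eq_eval]
  conv_lhs => rw [h1]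
  exact h2

theorem comap_extC [IsAlgClosed k] {Q : Ideal (MvPolynomial (Fin M) k)} (hQ : Q.IsPrime)
    {θ : MvPolynomial (Fin M) k →ₐ[k] MvPolynomial (Fin M) k} (hθ : ∀ g, θ g ∈ Q ↔ g ∈ Q)
    (f : MvPolynomial (Fin M) ℂ) : endC θ f ∈ extC Q ↔ f ∈ extC Q := by
  constructor
  · intro h
    by_contra hcon
    obtain ⟨c, hc⟩ := descend Q f hcon
    rw [← hθ] at hc
    obtain ⟨P, hP, hne⟩ := nullst hQ hc
    rw [eval_end, eval_coefMap, ← eval_endC, zero_of_extC h hP, map_zero] at hne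
    exact hne rfl
  · intro h
    rw [mem_extC_iff hQ]
    intro P hP
    rw [eval_endC]
    refine zero_of_extC h fun g hg => ?_
    rw [← eval_end]
    exact hP _ ((hθ g).2 hg)

theorem val_frac {K : Type} [Field K] [Algebra ℂ K] {Q : Ideal (MvPolynomial (Fin M) k)}
    (f : MvPolynomial (Fin M) ℂ ⧸ extC Q →ₐ[ℂ] K) (hf : Function.Injective f)
    (ψ : Fin (N + 1) → MvPolynomial (Fin M) k) (G : MvPolynomial (Fin (N + 1)) ℂ) :
    val (fun j => f (Ideal.Quotient.mk _ (MvPolynomial.map (algebraMap k ℂ) (ψ j)))) G = 0 ↔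
      aeval (fun j => MvPolynomial.map (algebraMap k ℂ) (ψ j)) G ∈ extC Q := by
  have h1 := MvPolynomial.comp_aeval_apply
    (f := fun j => MvPolynomial.map (algebraMap k ℂ) (ψ j))
    (f.comp (Ideal.Quotient.mkₐ ℂ (extC Q))) G
  unfold val
  have h2 : aeval (fun j => f (Ideal.Quotient.mk _ (MvPolynomial.map (algebraMap k ℂ) (ψ j)))) G =
      f (Ideal.Quotient.mk _ (aeval (fun j => MvPolynomial.map (algebraMap k ℂ) (ψ j)) G)) :=
    h1.symm
  rw [h2, map_eq_zero_iff f hf, Ideal.Quotient.eq_zero_iff_mem]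

theorem form_iff [IsAlgClosed k] {Q : Ideal (MvPolynomial (Fin M) k)} (hQ : Q.IsPrime)
    {FF : Set (MvPolynomial (Fin (N + 1)) k)} (hFF : ∀ G ∈ FF, IsForm G)
    {ψ : Fin (N + 1) → MvPolynomial (Fin M) k}
    (hψ : ∀ G, IsForm G → (aeval ψ G ∈ Q ↔ G ∈ Ideal.span FF))
    {G : MvPolynomial (Fin (N + 1)) ℂ} (hG : IsForm G) :
    aeval (fun j => MvPolynomial.map (algebraMap k ℂ) (ψ j)) G ∈ extC Q ↔
      G ∈ (Ideal.span FF).map (MvPolynomial.map (algebraMap k ℂ)) := by
  have hev : ∀ (P : Fin M → k) (H : MvPolynomial (Fin (N + 1)) ℂ),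
      eval (fun i => algebraMap k ℂ (P i))
        (aeval (fun j => MvPolynomial.map (algebraMap k ℂ) (ψ j)) H) =
        eval (fun j => algebraMap k ℂ (eval P (ψ j))) H := by
    intro P H
    have h1 := MvPolynomial.comp_aeval_apply
      (f := fun j => MvPolynomial.map (algebraMap k ℂ) (ψ j))
      (aeval fun i => algebraMap k ℂ (P i)) H
    rw [← MvPolynomial.aeval_eq_eval, ← MvPolynomial.aeval_eq_eval]
    refine h1.trans ?_
    congr 2
    funext i
    rw [MvPolynomial.aeval_eq_eval, eval_cast]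
  have hev' : ∀ (P : Fin M → k) (H : MvPolynomial (Fin (N + 1)) k),
      eval P (aeval ψ H) = eval (fun j => eval P (ψ j)) H := by
    intro P H
    have h1 := MvPolynomial.comp_aeval_apply (f := ψ) (aeval P) H
    rw [← MvPolynomial.aeval_eq_eval, ← MvPolynomial.aeval_eq_eval]
    exact h1
  constructor
  · intro h
    by_contra hcon
    obtain ⟨c, hc⟩ := descend _ G hcon
    obtain ⟨e, he⟩ := hG
    rw [← hψ _ ⟨e, coefMap_homog c he⟩] at hc
    obtain ⟨P, hP, hne⟩ := nullst hQ hc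
    have h1 := zero_of_extC h hP
    rw [hev] at h1
    rw [hev', eval_coefMap, h1, map_zero] at hne
    exact hne rfl
  · intro h
    rw [mem_extC_iff hQ]
    intro P hP
    rw [hev]
    have h1 : (Ideal.span FF).map (MvPolynomial.map (algebraMap k ℂ)) ≤
        RingHom.ker (eval (fun j => algebraMap k ℂ (eval P (ψ j)))) := by
      rw [Ideal.map_span, Ideal.span_le]
      rintro _ ⟨H, hH, rfl⟩
      change eval (fun j => algebraMap k ℂ (eval P (ψ j)))
        (MvPolynomial.map (algebraMap k ℂ) H) = 0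
      rw [eval_cast (fun j => eval P (ψ j)) H, ← hev',
        hP _ ((hψ H (hFF H hH)).2 (Ideal.subset_span hH)), map_zero]
    exact h1 h

/-- **One component.** -/
theorem one_prime [IsAlgClosed k] {Q : Ideal (MvPolynomial (Fin M) k)} (hQ : Q.IsPrime)
    {θ : MvPolynomial (Fin M) k →ₐ[k] MvPolynomial (Fin M) k} (hθ : ∀ g, θ g ∈ Q ↔ g ∈ Q)
    {FF : Set (MvPolynomial (Fin (N + 1)) k)} (hFF : ∀ G ∈ FF, IsForm G)
    {F : Type} [Field F] [Algebra ℂ F] {w : ℕ} {y : Fin (N + 1) → F}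
    (hy : FunField ((Ideal.span FF).map (MvPolynomial.map (algebraMap k ℂ))) 1 F w y)
    (hw : 0 < w) (hGT : GeneralType ℂ F w) {ψ : Fin (N + 1) → MvPolynomial (Fin M) k}
    (hψ : ∀ G, IsForm G → (aeval ψ G ∈ Q ↔ G ∈ Ideal.span FF)) :
    ∃ n, 0 < n ∧ ∀ t i j, (θ ^ (n * t)) (ψ i) * ψ j - (θ ^ (n * t)) (ψ j) * ψ i ∈ Q := by
  classical
  have hQC := extC_prime hQ
  have hdom : IsDomain (MvPolynomial (Fin M) ℂ ⧸ extC Q) := Ideal.Quotient.isDomain _
  have hle : extC Q ≤ (extC Q).comap (endC θ) := fun f hf => (comap_extC hQ hθ f).2 hf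
  let s : MvPolynomial (Fin M) ℂ ⧸ extC Q →ₐ[ℂ] MvPolynomial (Fin M) ℂ ⧸ extC Q :=
    Ideal.quotientMapₐ (extC Q) (endC θ) hle
  have hs : Function.Injective s := by
    refine Ideal.quotientMap_injective' (H := hle) fun f hf => ?_
    exact (comap_extC hQ hθ f).1 hf
  let K := FractionRing (MvPolynomial (Fin M) ℂ ⧸ extC Q)
  let f : MvPolynomial (Fin M) ℂ ⧸ extC Q →ₐ[ℂ] K := IsScalarTower.toAlgHom ℂ _ K
  have hf : Function.Injective f := IsFractionRing.injective _ K
  have hess : Algebra.EssFiniteType ℂ K := by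
    have h1 : Algebra.EssFiniteType ℂ (MvPolynomial (Fin M) ℂ ⧸ extC Q) := inferInstance
    have h2 : Algebra.EssFiniteType (MvPolynomial (Fin M) ℂ ⧸ extC Q) K :=
      Algebra.EssFiniteType.of_isLocalization _ (nonZeroDivisors _)
    exact Algebra.EssFiniteType.comp ℂ (MvPolynomial (Fin M) ℂ ⧸ extC Q) K
  have hg : Function.Injective (f.comp s) := hf.comp hs
  let σ : K →ₐ[ℂ] K := IsFractionRing.liftAlgHom hg
  have hσ : ∀ z, σ (f z) = f (s z) := by
    intro z
    have h1 := IsFractionRing.liftAlgHom_apply (K := K) hg (f z)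
    rw [show σ (f z) = IsFractionRing.lift hg (f z) from h1]
    exact IsFractionRing.lift_algebraMap hg z
  have hσp : ∀ (m : ℕ) (g : MvPolynomial (Fin M) k),
      (σ ^ m) (f (Ideal.Quotient.mk _ (MvPolynomial.map (algebraMap k ℂ) g))) =
        f (Ideal.Quotient.mk _ (MvPolynomial.map (algebraMap k ℂ) ((θ ^ m) g))) := by
    intro m
    induction m with
    | zero => exact fun g => rfl
    | succ m ih =>
      intro g
      rw [pow_succ, pow_succ]
      change (σ ^ m) (σ (f (Ideal.Quotient.mk _ (MvPolynomial.map (algebraMap k ℂ) g)))) =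
        f (Ideal.Quotient.mk _ (MvPolynomial.map (algebraMap k ℂ) ((θ ^ m) (θ g))))
      rw [hσ, ← ih]
      congr 2
      change Ideal.Quotient.mk _ (endC θ (MvPolynomial.map (algebraMap k ℂ) g)) = _
      rw [endC_map]
  obtain ⟨Y, hY⟩ : ∃ Y : Fin (N + 1) → K, Y = fun j =>
    f (Ideal.Quotient.mk _ (MvPolynomial.map (algebraMap k ℂ) (ψ j))) := ⟨_, rfl⟩
  have hyz : ∀ G : MvPolynomial (Fin (N + 1)) ℂ, IsForm G → (val y G = 0 ↔ val Y G = 0) := by
    intro G hG
    rw [hY, val_frac f hf ψ G, form_iff hQ hFF hψ hG]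
    exact ⟨fun h => hy.mem G hG h, fun h => hy.sub.mem G h⟩
  obtain ⟨i0, hi0⟩ := Function.ne_iff.1 hy.sub.ne
  have hi0' : y i0 ≠ 0 := hi0
  have hYi : Y i0 ≠ 0 := by
    intro h0
    apply hi0'
    have h1 := (hyz (X i0) ⟨1, isHomogeneous_X _ _⟩).2 (by
      unfold val
      rw [aeval_X]
      exact h0)
    unfold val at h1
    rwa [aeval_X] at h1
  obtain ⟨ι, hι⟩ := exists_embedding hi0' hYi hy.sub.gen hyz
  have hessF : Algebra.EssFiniteType ℂ F := ess_of_coords hy.sub.gen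
  obtain ⟨n, hn, hper⟩ := ko hw hGT σ ι
  refine ⟨n, hn, fun t i j => ?_⟩
  have hper' : ∀ z, (σ ^ (n * t)) (ι z) = ι z := by
    intro z
    rw [pow_mul]
    induction t with
    | zero => rfl
    | succ t ih =>
      rw [pow_succ]
      change ((σ ^ n) ^ t) ((σ ^ n) (ι z)) = ι z
      rw [hper, ih]
  have h1 : ∀ j, (σ ^ (n * t)) (Y j) = (σ ^ (n * t)) (Y i0) * (Y j / Y i0) := by
    intro j
    have h2 := hper' (y j / y i0)
    rw [hι, map_div₀] at h2
    have h3 : (σ ^ (n * t)) (Y i0) ≠ 0 := (map_ne_zero (σ ^ (n * t))).2 hYi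
    rw [← h2, mul_div_cancel₀ _ h3]
  apply mem_of_extC hQ
  rw [← Ideal.Quotient.eq_zero_iff_mem, ← map_eq_zero_iff f hf]
  simp only [map_sub, map_mul]
  rw [← hσp, ← hσp]
  have h4 : ∀ j, f (Ideal.Quotient.mk _ (MvPolynomial.map (algebraMap k ℂ) (ψ j))) = Y j := by
    intro j
    rw [hY]
  rw [h4, h4, h1 i, h1 j]
  ring

end Pool.Agent.Q13.UN
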