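import Pool.Agent.Q13.UN.Per

/-!
Sequences satisfying linear recurrences with polynomial coefficients are orbits of one polynomial
map, up to finitely many interruptions.
-/

set_option autoImplicit false

namespace Pool.Agent.Q13.UN

open MvPolynomial Filter Pool.Agent.TH143.HE Pool.Agent.Q13.KO

variable {k : Type} [Field k] {N r e : ℕ}

/-- the variables: the index, the coefficients of the polynomials, the window -/
abbrev Vars (N r e : ℕ) : Type :=
  Unit ⊕ (Fin (N + 1) × Fin (r + 2) × Fin (e + 1)) ⊕ (Fin (N + 1) × Fin (r + 1))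

/-- the coefficients of the recurrences -/
noncomputable def coe (k : Type) [Field k] {N r e : ℕ} (j : Fin (N + 1)) (i : Fin (r + 2)) :
    MvPolynomial (Vars N r e) k :=
  ∑ s : Fin (e + 1), X (Sum.inr (Sum.inl (j, i, s))) * X (Sum.inl ()) ^ (s : ℕ)

/-- the polynomial map -/
noncomputable def TR (k : Type) [Field k] (N r e : ℕ) : Vars N r e → MvPolynomial (Vars N r e) k
  | Sum.inl _ => X (Sum.inl ()) + 1
  | Sum.inr (Sum.inl a) => X (Sum.inr (Sum.inl a))
  | Sum.inr (Sum.inr (j, i)) =>
    if h : (i : ℕ) + 1 < r + 1 then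
      (∏ j', coe k (e := e) j' (Fin.last (r + 1))) * X (Sum.inr (Sum.inr (j, ⟨i + 1, h⟩)))
    else
      -((∏ j' ∈ Finset.univ.erase j, coe k (e := e) j' (Fin.last (r + 1))) *
        ∑ i' : Fin (r + 1), coe k j i'.castSucc * X (Sum.inr (Sum.inr (j, i'))))

/-- the coordinates -/
noncomputable def psiR (k : Type) [Field k] (N r e : ℕ) : Fin (N + 1) → MvPolynomial (Vars N r e) k :=
  fun j => X (Sum.inr (Sum.inr (j, 0)))

/-- the starting point -/
def start {L : Type} [Field L] (a : Fin (N + 1) → ℕ → Polynomial L) (x : ℕ → Fin (N + 1) → L)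
    (e r b : ℕ) : Vars N r e → L
  | Sum.inl _ => b
  | Sum.inr (Sum.inl (j, i, s)) => (a j i).coeff s
  | Sum.inr (Sum.inr (j, i)) => x (b + i) j

/-- the scaling factors -/
noncomputable def scal {L : Type} [Field L] (a : Fin (N + 1) → ℕ → Polynomial L) (r b m : ℕ) : L :=
  ∏ l ∈ Finset.range m, ∏ j, (a j (r + 1)).eval ((b + l : ℕ) : L)

section

variable {L : Type} [Field L] [Algebra k L] {a : Fin (N + 1) → ℕ → Polynomial L}
  {x : ℕ → Fin (N + 1) → L}

theorem coe_eval (ha : ∀ j i, (a j i).natDegree ≤ e) (v : Vars N r e → L) (t : L)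
    (ht : v (Sum.inl ()) = t)
    (hv : ∀ j i s, v (Sum.inr (Sum.inl (j, i, s))) = (a j i).coeff s) (j : Fin (N + 1))
    (i : Fin (r + 2)) : aeval v (coe k j i) = (a j i).eval t := by
  rw [Polynomial.eval_eq_sum_range' (Nat.lt_succ_of_le (ha j i)), coe, map_sum,
    Finset.sum_range]
  refine Finset.sum_congr rfl fun s _ => ?_
  rw [map_mul, map_pow, aeval_X, aeval_X, ht, hv]

theorem orb_start (ha : ∀ j i, (a j i).natDegree ≤ e)
    (hrec : ∀ (j : Fin (N + 1)) (m : ℕ), ∑ i ∈ Finset.range (r + 2), (a j i).eval (m : L) * x (m + i) j = 0) (b m : ℕ) :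
    orb (TR k N r e) (start a x e r b) m = fun z => match z with
      | Sum.inl _ => ((b + m : ℕ) : L)
      | Sum.inr (Sum.inl (j, i, s)) => (a j i).coeff s
      | Sum.inr (Sum.inr (j, i)) => scal a r b m * x (b + m + i) j := by
  induction m with
  | zero =>
    funext z
    rcases z with u | ⟨j, i, s⟩ | ⟨j, i⟩
    · simp [orb, start]
    · simp [orb, start]
    · simp [orb, start, scal]
  | succ m ih =>
    funext z
    change aeval (orb (TR k N r e) (start a x e r b) m) (TR k N r e z) = _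
    obtain ⟨v, hv⟩ : ∃ v, v = orb (TR k N r e) (start a x e r b) m := ⟨_, rfl⟩
    rw [← hv] at ih ⊢
    have h1 : v (Sum.inl ()) = ((b + m : ℕ) : L) := by rw [ih]
    have h2 : ∀ j i s, v (Sum.inr (Sum.inl (j, i, s))) = (a j i).coeff s := by
      intro j i s
      rw [ih]
    have h3 : ∀ j i, v (Sum.inr (Sum.inr (j, i))) = scal a r b m * x (b + m + i) j := by
      intro j i
      rw [ih]
    have h4 := coe_eval (k := k) ha v _ h1 h2
    have h5 : scal a r b (m + 1) =
        scal a r b m * ∏ j, (a j (r + 1)).eval ((b + m : ℕ) : L) := by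
      rw [scal, Finset.prod_range_succ]
      rfl
    rcases z with u | ⟨j, i, s⟩ | ⟨j, i⟩
    · change aeval v (X (Sum.inl ()) + 1) = ((b + (m + 1) : ℕ) : L)
      rw [map_add, aeval_X, map_one, h1]
      push_cast
      ring
    · change aeval v (X (Sum.inr (Sum.inl (j, i, s)))) = (a j i).coeff s
      rw [aeval_X, h2]
    · change aeval v (TR k N r e (Sum.inr (Sum.inr (j, i)))) =
        scal a r b (m + 1) * x (b + (m + 1) + i) j
      by_cases h : (i : ℕ) + 1 < r + 1
      · have h6 : TR k N r e (Sum.inr (Sum.inr (j, i))) =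
            (∏ j', coe k (e := e) j' (Fin.last (r + 1))) *
              X (Sum.inr (Sum.inr (j, ⟨i + 1, h⟩))) := by
          simp only [TR, dif_pos h]
        rw [h6, map_mul, map_prod, aeval_X, h3, h5]
        have h7 : ∀ j', aeval v (coe k j' (Fin.last (r + 1))) =
            (a j' (r + 1)).eval ((b + m : ℕ) : L) := fun j' => h4 j' _
        rw [Finset.prod_congr rfl fun j' _ => h7 j']
        have h8 : b + m + ((⟨(i : ℕ) + 1, h⟩ : Fin (r + 1)) : ℕ) = b + (m + 1) + i := by
          change b + m + (i + 1) = _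
          ring
        rw [h8]
        ring
      · have h6 : TR k N r e (Sum.inr (Sum.inr (j, i))) =
            -((∏ j' ∈ Finset.univ.erase j, coe k (e := e) j' (Fin.last (r + 1))) *
              ∑ i' : Fin (r + 1), coe k j i'.castSucc * X (Sum.inr (Sum.inr (j, i')))) := by
          simp only [TR, dif_neg h]
        have h7 : ∀ j', aeval v (coe k j' (Fin.last (r + 1))) =
            (a j' (r + 1)).eval ((b + m : ℕ) : L) := fun j' => h4 j' _
        rw [h6, map_neg, map_mul, map_prod, map_sum, h5,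
          Finset.prod_congr rfl fun j' _ => h7 j',
          ← Finset.mul_prod_erase Finset.univ (fun j' => (a j' (r + 1)).eval ((b + m : ℕ) : L))
            (Finset.mem_univ j)]
        have h8 : (i : ℕ) = r := by
          have := i.isLt
          omega
        have h9 : ∑ i' : Fin (r + 1), aeval v (coe k j i'.castSucc *
            X (Sum.inr (Sum.inr (j, i')))) =
            scal a r b m * ∑ i' ∈ Finset.range (r + 1),
              (a j i').eval ((b + m : ℕ) : L) * x (b + m + i') j := by
          rw [Finset.sum_range, Finset.mul_sum]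
          refine Finset.sum_congr rfl fun i' _ => ?_
          rw [map_mul, aeval_X, h3, h4]
          change (a j i').eval _ * _ = _
          ring
        rw [h9]
        have h10 := hrec j (b + m)
        rw [Finset.sum_range_succ] at h10
        have h11 : b + (m + 1) + (i : ℕ) = b + m + (r + 1) := by
          rw [h8]
          ring
        rw [h11]
        linear_combination (-(∏ j' ∈ Finset.univ.erase j,
          (a j' (r + 1)).eval ((b + m : ℕ) : L)) * scal a r b m) * h10

theorem along_start (ha : ∀ j i, (a j i).natDegree ≤ e)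
    (hrec : ∀ (j : Fin (N + 1)) (m : ℕ), ∑ i ∈ Finset.range (r + 2), (a j i).eval (m : L) * x (m + i) j = 0) (b m : ℕ)
    (j : Fin (N + 1)) :
    along (TR k N r e) (psiR k N r e) (start a x e r b) m j = scal a r b m * x (b + m) j := by
  change aeval (orb (TR k N r e) (start a x e r b) m) (X (Sum.inr (Sum.inr (j, 0)))) = _
  rw [aeval_X, orb_start ha hrec]
  rfl

end

theorem isPtP_scale {L : Type} [Field L] [Algebra k L] {J : Ideal (MvPolynomial (Fin (N + 1)) k)}
    {x x' : Fin (N + 1) → L} {c : L} (h : ∀ j, x' j = c * x j)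
    (hx : IsPtP (algebraMap k L) J x) : IsPtP (algebraMap k L) J x' := by
  intro G hG hGh
  obtain ⟨d, hd⟩ := hGh
  have h1 : x' = fun j => c * x j := funext h
  have h2 := aeval_scale_hom (R := k) (F := L) hd x c
  rw [h1]
  change aeval (fun j => c * x j) G = 0
  rw [h2]
  have h3 : aeval x G = 0 := hx G hG ⟨d, hd⟩
  rw [h3, mul_zero]

theorem OffZ.scale {L : Type} [Field L] [Algebra k L]
    {I I' : Ideal (MvPolynomial (Fin (N + 1)) k)} {x x' : Fin (N + 1) → L} {c : L} (hc : c ≠ 0)
    (h : ∀ j, x' j = c * x j) (hx : OffZ I I' x) : OffZ I I' x' := by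
  refine ⟨fun h0 => hx.ne ?_, isPtP_scale h hx.mem, fun h1 => hx.out ?_⟩
  · funext j
    have h1 := congrFun h0 j
    rw [h] at h1
    exact (mul_eq_zero.1 h1).resolve_left hc
  · exact isPtP_scale (c := c⁻¹) (fun j => by rw [h, inv_mul_cancel_left₀ hc]) h1

/-- Each coordinate of the sequence `x` satisfies a nontrivial linear recurrence of order at most
`r` whose coefficients are polynomials of degree at most `e`. -/
def PolyRec (r e : ℕ) {L : Type} [Field L] (x : ℕ → Fin (N + 1) → L) : Prop :=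
  ∀ j, ∃ a : ℕ → Polynomial L, (∀ i, (a i).natDegree ≤ e) ∧ (∃ i ≤ r, a i ≠ 0) ∧
    ∀ m : ℕ, ∑ i ∈ Finset.range (r + 1), (a i).eval (m : L) * x (m + i) j = 0

/-- one can assume that the leading coefficient is not zero -/
theorem normal {L : Type} [Field L] {r e : ℕ} {f : ℕ → L} {a : ℕ → Polynomial L}
    (h1 : ∀ i, (a i).natDegree ≤ e) (h2 : ∃ i ≤ r, a i ≠ 0)
    (h3 : ∀ m : ℕ, ∑ i ∈ Finset.range (r + 1), (a i).eval (m : L) * f (m + i) = 0) :
    ∃ b : ℕ → Polynomial L, (∀ i, (b i).natDegree ≤ e) ∧ b (r + 1) ≠ 0 ∧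
      ∀ m : ℕ, ∑ i ∈ Finset.range (r + 2), (b i).eval (m : L) * f (m + i) = 0 := by
  classical
  obtain ⟨i0, hi0, hmax⟩ : ∃ i0, (i0 ≤ r ∧ a i0 ≠ 0) ∧ ∀ i ≤ r, a i ≠ 0 → i ≤ i0 := by
    obtain ⟨i, hi, hai⟩ := h2
    refine ⟨Nat.findGreatest (fun i => a i ≠ 0) r, ⟨Nat.findGreatest_le r, ?_⟩, fun i' hi' ha' => ?_⟩
    · exact Nat.findGreatest_spec (P := fun i => a i ≠ 0) hi hai
    · exact Nat.le_findGreatest (P := fun i => a i ≠ 0) hi' ha'
  obtain ⟨d, hd⟩ : ∃ d, r + 1 = i0 + d := ⟨r + 1 - i0, by omega⟩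
  have hXC : ((Polynomial.X : Polynomial L) + Polynomial.C (d : L)).natDegree = 1 :=
    Polynomial.natDegree_X_add_C _
  refine ⟨fun i => if d ≤ i then (a (i - d)).comp (Polynomial.X + Polynomial.C (d : L)) else 0,
    fun i => ?_, ?_, fun m => ?_⟩
  · dsimp only
    split_ifs with h
    · rw [Polynomial.natDegree_comp, hXC, mul_one]
      exact h1 _
    · rw [Polynomial.natDegree_zero]
      exact Nat.zero_le _
  · have h4 : d ≤ r + 1 := by omega
    have h5 : r + 1 - d = i0 := by omega
    dsimp only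
    rw [if_pos h4, h5]
    intro h6
    apply hi0.2
    have h7 := congrArg (fun p : Polynomial L => p.comp (Polynomial.X - Polynomial.C (d : L))) h6
    simp only [Polynomial.comp_assoc, Polynomial.add_comp, Polynomial.X_comp, Polynomial.C_comp,
      sub_add_cancel, Polynomial.comp_X, Polynomial.zero_comp] at h7
    exact h7
  · have h4 : ∑ i ∈ Finset.range (r + 2), (if d ≤ i then
        (a (i - d)).comp (Polynomial.X + Polynomial.C (d : L)) else 0).eval (m : L) * f (m + i) =
        ∑ i ∈ Finset.range (r + 1), (a i).eval ((m + d : ℕ) : L) * f (m + d + i) := by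
      have h5 : ∀ i ∈ Finset.range (r + 1), i ∉ Finset.range (i0 + 1) →
          (a i).eval ((m + d : ℕ) : L) * f (m + d + i) = 0 := by
        intro i hi hi'
        rw [Finset.mem_range] at hi hi'
        have h6 : a i = 0 := by
          by_contra h7
          have := hmax i (by omega) h7
          omega
        rw [h6, Polynomial.eval_zero, zero_mul]
      rw [← Finset.sum_subset (Finset.range_mono (by omega : i0 + 1 ≤ r + 1)) h5]
      have h6 : r + 2 = d + (i0 + 1) := by omega
      rw [h6, Finset.sum_range_add]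
      rw [Finset.sum_eq_zero (s := Finset.range d), zero_add]
      · refine Finset.sum_congr rfl fun i _ => ?_
        rw [if_pos (Nat.le_add_right d i), Polynomial.eval_comp, Nat.add_sub_cancel_left,
          Polynomial.eval_add, Polynomial.eval_X, Polynomial.eval_C, add_assoc, Nat.cast_add]
      · intro i hi
        rw [Finset.mem_range] at hi
        rw [if_neg (by omega), Polynomial.eval_zero, zero_mul]
    rw [h4]
    exact h3 (m + d)

theorem scal_ne {L : Type} [Field L] {a : Fin (N + 1) → ℕ → Polynomial L} {r b m : ℕ}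
    (h : ∀ l < m, (∏ j, a j (r + 1)).eval ((b + l : ℕ) : L) ≠ 0) : scal a r b m ≠ 0 := by
  refine Finset.prod_ne_zero_iff.2 fun l hl => ?_
  have h1 := h l (Finset.mem_range.1 hl)
  rwa [Polynomial.eval_prod] at h1

/-- the natural zeros of a polynomial -/
theorem nat_roots {L : Type} [Field L] [CharZero L] {C : Polynomial L} (hC : C ≠ 0) :
    ∃ R : Finset ℕ, R.card ≤ C.natDegree ∧ ∀ l : ℕ, C.eval (l : L) = 0 → l ∈ R := by
  classical
  have hfin : {l : ℕ | C.eval (l : L) = 0}.Finite := by
    have h1 : {z : L | C.IsRoot z}.Finite := Polynomial.finite_setOfPred_isRoot hC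
    exact h1.preimage Nat.cast_injective.injOn
  refine ⟨hfin.toFinset, ?_, fun l hl => hfin.mem_toFinset.2 hl⟩
  refine le_trans (Finset.card_le_card_of_injOn (t := C.roots.toFinset) (fun l : ℕ => (l : L))
    ?_ Nat.cast_injective.injOn) ((Multiset.toFinset_card_le _).trans (Polynomial.card_roots' C))
  intro l hl
  have h1 := hfin.mem_toFinset.1 hl
  exact Multiset.mem_toFinset.2 ((Polynomial.mem_roots hC).2 h1)

/-- **A uniform bound for the number of points.** -/
theorem few_points_of [CharZero k] {I I' : Ideal (MvPolynomial (Fin (N + 1)) k)} (r e : ℕ)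
    (hun : ∃ s m0 p : ℕ, 0 < p ∧ ∀ (L : Type) [Field L] [Algebra k L] (v : Vars N r e → L),
      (∀ m ≤ s, OffZ I I' (along (TR k N r e) (psiR k N r e) v m)) →
        ∀ m n, m0 ≤ m → m0 ≤ n → m ≡ n [MOD p] → ∀ i j,
          along (TR k N r e) (psiR k N r e) v m i * along (TR k N r e) (psiR k N r e) v n j =
          along (TR k N r e) (psiR k N r e) v m j * along (TR k N r e) (psiR k N r e) v n i) :
    ∃ B : ℕ, ∀ (L : Type) [Field L] [Algebra k L] (x : ℕ → Fin (N + 1) → L), PolyRec r e x →
      (∀ m, OffZ I I' (x m)) → ∃ S : Finset (Fin (N + 1) → L), S.card ≤ B ∧ (∀ v ∈ S, v ≠ 0) ∧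
        ∀ m, ∃ v ∈ S, ∀ i j, x m i * v j = x m j * v i := by
  classical
  obtain ⟨s, m0, p, hp, hU⟩ := hun
  refine ⟨(1 + (N + 1) * e) * max (s + 1) (m0 + p), fun L _ _ x hx hoff => ?_⟩
  have hL0 : CharZero L := charZero_of_injective_algebraMap (algebraMap k L).injective
  have h1 : ∀ j, ∃ b : ℕ → Polynomial L, (∀ i, (b i).natDegree ≤ e) ∧ b (r + 1) ≠ 0 ∧
      ∀ m : ℕ, ∑ i ∈ Finset.range (r + 2), (b i).eval (m : L) * x (m + i) j = 0 := by
    intro j
    obtain ⟨a, h2, h3, h4⟩ := hx j
    exact normal (f := fun m => x m j) h2 h3 h4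
  choose a ha ha0 hrec using h1
  obtain ⟨C, hC⟩ : ∃ C, C = ∏ j, a j (r + 1) := ⟨_, rfl⟩
  have hC0 : C ≠ 0 := by
    rw [hC]
    exact Finset.prod_ne_zero_iff.2 fun j _ => ha0 j
  have hCd : C.natDegree ≤ (N + 1) * e := by
    rw [hC]
    refine (Polynomial.natDegree_prod_le _ _).trans ?_
    refine (Finset.sum_le_card_nsmul _ _ e fun j _ => ha j _).trans ?_
    rw [Finset.card_univ, Fintype.card_fin, smul_eq_mul]
  obtain ⟨R, hR, hR'⟩ := nat_roots hC0
  obtain ⟨Q, hQ⟩ : ∃ Q, Q = insert 0 (R.image (· + 1)) := ⟨_, rfl⟩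
  have hQc : Q.card ≤ 1 + (N + 1) * e := by
    rw [hQ]
    refine (Finset.card_insert_le _ _).trans ?_
    have h2 := Finset.card_image_le (s := R) (f := (· + 1))
    omega
  refine ⟨(Q ×ˢ Finset.range (max (s + 1) (m0 + p))).image fun z => x (z.1 + z.2), ?_, ?_, ?_⟩
  · refine Finset.card_image_le.trans ?_
    rw [Finset.card_product, Finset.card_range]
    exact Nat.mul_le_mul_right _ hQc
  · intro v hv
    obtain ⟨z, _, rfl⟩ := Finset.mem_image.1 hv
    exact (hoff _).ne
  · intro m
    have hne : (Q.filter (· ≤ m)).Nonempty :=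
      ⟨0, Finset.mem_filter.2 ⟨by rw [hQ]; exact Finset.mem_insert_self _ _, Nat.zero_le _⟩⟩
    obtain ⟨b, hb⟩ : ∃ b, b = (Q.filter (· ≤ m)).max' hne := ⟨_, rfl⟩
    have hbm := Finset.max'_mem _ hne
    rw [← hb, Finset.mem_filter] at hbm
    have hgood : ∀ l, b ≤ l → l < m → C.eval (l : L) ≠ 0 := by
      intro l hl hlm h0
      have h2 : l + 1 ∈ Q.filter (· ≤ m) := by
        refine Finset.mem_filter.2 ⟨?_, hlm⟩
        rw [hQ]
        exact Finset.mem_insert_of_mem (Finset.mem_image.2 ⟨l, hR' l h0, rfl⟩)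
      have h3 := Finset.le_max' _ _ h2
      rw [← hb] at h3
      omega
    obtain ⟨i0, hi0⟩ : ∃ i0, m = b + i0 := ⟨m - b, by omega⟩
    by_cases hK : i0 < max (s + 1) (m0 + p)
    · refine ⟨x (b + i0), Finset.mem_image.2 ⟨(b, i0), Finset.mem_product.2
        ⟨hbm.1, Finset.mem_range.2 hK⟩, rfl⟩, fun i j => ?_⟩
      rw [hi0, mul_comm]
    · push Not at hK
      have hK1 : s + 1 ≤ i0 := (le_max_left _ _).trans hK
      have hK2 : m0 + p ≤ i0 := (le_max_right _ _).trans hK
      have hsc : ∀ m' ≤ i0, scal a r b m' ≠ 0 := by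
        intro m' hm'
        refine scal_ne fun l hl => ?_
        rw [← hC]
        exact hgood _ (Nat.le_add_right _ _) (by omega)
      have h2 := hU L (start a x e r b) fun m' hm' =>
        (hoff (b + m')).scale (hsc m' (by omega)) fun j => along_start ha hrec b m' j
      obtain ⟨i, hi⟩ : ∃ i, i = m0 + (i0 - m0) % p := ⟨_, rfl⟩
      have hip : (i0 - m0) % p < p := Nat.mod_lt _ hp
      have hile : (i0 - m0) % p ≤ i0 - m0 := Nat.mod_le _ _
      have hmod : i0 ≡ i [MOD p] := by
        rw [hi]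
        have h3 : i0 = m0 + (i0 - m0) := by omega
        conv_lhs => rw [h3]
        exact Nat.ModEq.add_left _ (Nat.mod_modEq _ _).symm
      have h3 := h2 i0 i (by omega) (by omega) hmod
      refine ⟨x (b + i), Finset.mem_image.2 ⟨(b, i), Finset.mem_product.2
        ⟨hbm.1, Finset.mem_range.2 (lt_of_lt_of_le (by omega) (le_max_right _ _))⟩, rfl⟩,
        fun j j' => ?_⟩
      have h4 := h3 j j'
      rw [along_start ha hrec, along_start ha hrec, along_start ha hrec, along_start ha hrec] at h4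
      rw [hi0]
      apply mul_left_cancel₀ (mul_ne_zero (hsc i0 le_rfl) (hsc i (by omega)))
      linear_combination h4

theorem few_points [Countable k] [Algebra k ℂ] {I I' : Ideal (MvPolynomial (Fin (N + 1)) k)}
    (h : SubGT (algebraMap k ℂ) I I') (r e : ℕ) :
    ∃ B : ℕ, ∀ (L : Type) [Field L] [Algebra k L] (x : ℕ → Fin (N + 1) → L), PolyRec r e x →
      (∀ m, OffZ I I' (x m)) → ∃ S : Finset (Fin (N + 1) → L), S.card ≤ B ∧ (∀ v ∈ S, v ≠ 0) ∧
        ∀ m, ∃ v ∈ S, ∀ i j, x m i * v j = x m j * v i := by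
  have hk0 : CharZero k := (algebraMap k ℂ).charZero
  exact few_points_of r e (unif_all h (TR k N r e) (psiR k N r e))

end Pool.Agent.Q13.UN
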