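import Pool.Agent.Q13.UN.Key
import Pool.Agent.Q13.UN.Multi
import Pool.Agent.Q13.UN.Rec

/-!
Orbits in varieties of general type: one proper closed subset and uniform bounds.
-/

set_option autoImplicit false

namespace Pool.Agent.Q13.UN

open MvPolynomial Pool.Agent.TH143.HE Pool.Agent.TH143.GT Pool.Agent.W602.GT Pool.Agent.Q13.KO
  Pool.Agent.Q13.DS

variable {k : Type} [Field k] {M N : ℕ}

theorem offZ_iff {L : Type} [Field L] [Algebra k L] {FF : Set (MvPolynomial (Fin (N + 1)) k)}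
    (hFF : ∀ G ∈ FF, IsForm G) {G : MvPolynomial (Fin (N + 1)) k} (hG : IsForm G)
    {x : Fin (N + 1) → L} : OffZ (Ideal.span FF) (Ideal.span {G}) x ↔
      x ≠ 0 ∧ (∀ H ∈ FF, aeval x H = 0) ∧ aeval x G ≠ 0 := by
  have hker : ∀ I : Ideal (MvPolynomial (Fin (N + 1)) k),
      I ≤ RingHom.ker (aeval x : MvPolynomial (Fin (N + 1)) k →ₐ[k] L) →
      IsPtP (algebraMap k L) I x := fun I hI H hH _ => hI hH
  constructor
  · intro h
    refine ⟨h.ne, fun H hH => h.mem H (Ideal.subset_span hH) (hFF H hH), fun h0 => h.out ?_⟩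
    apply hker
    rw [Ideal.span_singleton_le_iff_mem]
    exact h0
  · rintro ⟨h1, h2, h3⟩
    refine ⟨h1, hker _ (Ideal.span_le.2 h2), fun h4 => h3 ?_⟩
    exact h4 G (Ideal.mem_span_singleton_self G) hG

/-- one form `G` and uniform bounds, for the orbits in the zero set of `J` -/
def PUnif (FF : Set (MvPolynomial (Fin (N + 1)) k)) (T : Fin M → MvPolynomial (Fin M) k)
    (ψ : Fin (N + 1) → MvPolynomial (Fin M) k) (J : Ideal (MvPolynomial (Fin M) k)) : Prop :=
  ∃ G : MvPolynomial (Fin (N + 1)) k, IsForm G ∧ G ∉ Ideal.span FF ∧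
    Unif (Ideal.span FF) (Ideal.span {G}) T ψ J

theorem Unif.mono {FF : Set (MvPolynomial (Fin (N + 1)) k)} (hFF : ∀ G ∈ FF, IsForm G)
    {G G' : MvPolynomial (Fin (N + 1)) k} (hG : IsForm G) (hG' : IsForm G')
    {T : Fin M → MvPolynomial (Fin M) k} {ψ : Fin (N + 1) → MvPolynomial (Fin M) k}
    {J : Ideal (MvPolynomial (Fin M) k)} (hd : G ∣ G')
    (h : Unif (Ideal.span FF) (Ideal.span {G}) T ψ J) :
    Unif (Ideal.span FF) (Ideal.span {G'}) T ψ J := by
  obtain ⟨s, m0, p, hp, h1⟩ := h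
  refine ⟨s, m0, p, hp, fun L _ _ v hv hoff => h1 L v hv fun m hm => ?_⟩
  have h2 := (offZ_iff hFF hG').1 (hoff m hm)
  refine (offZ_iff hFF hG).2 ⟨h2.1, h2.2.1, fun h3 => h2.2.2 ?_⟩
  obtain ⟨H, rfl⟩ := hd
  rw [map_mul, h3, zero_mul]

theorem form_mul {G H : MvPolynomial (Fin (N + 1)) k} (hG : IsForm G) (hH : IsForm H) :
    IsForm (G * H) := by
  obtain ⟨d, hd⟩ := hG
  obtain ⟨e, he⟩ := hH
  exact ⟨d + e, hd.mul he⟩

section

variable [Algebra k ℂ] {F : Type} [Field F] [Algebra ℂ F] {w : ℕ} {y : Fin (N + 1) → F}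
  {FF : Set (MvPolynomial (Fin (N + 1)) k)}

theorem val_ne (hy : FunField ((Ideal.span FF).map (MvPolynomial.map (algebraMap k ℂ))) 1 F w y)
    {G : MvPolynomial (Fin (N + 1)) k} (hG : IsForm G) (h : G ∉ Ideal.span FF) :
    val y (MvPolynomial.map (algebraMap k ℂ) G) ≠ 0 := by
  intro h0
  obtain ⟨e, he⟩ := hG
  exact h (mem_of_map (hy.mem _ ⟨e, he.map _⟩ h0))

theorem not_mem_of_val (hy : FunField ((Ideal.span FF).map
    (MvPolynomial.map (algebraMap k ℂ))) 1 F w y) {G : MvPolynomial (Fin (N + 1)) k}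
    (h : val y (MvPolynomial.map (algebraMap k ℂ) G) ≠ 0) : G ∉ Ideal.span FF := fun h0 =>
  h (hy.sub.mem _ (Ideal.mem_map_of_mem _ h0))

theorem mul_not_mem (hy : FunField ((Ideal.span FF).map
    (MvPolynomial.map (algebraMap k ℂ))) 1 F w y) {G H : MvPolynomial (Fin (N + 1)) k}
    (hG : IsForm G) (hH : IsForm H) (h : G ∉ Ideal.span FF) (h' : H ∉ Ideal.span FF) :
    G * H ∉ Ideal.span FF := by
  apply not_mem_of_val hy
  have h1 := mul_ne_zero (val_ne hy hG h) (val_ne hy hH h')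
  unfold val at h1 ⊢
  rwa [map_mul, map_mul]

theorem one_not_mem (hy : FunField ((Ideal.span FF).map
    (MvPolynomial.map (algebraMap k ℂ))) 1 F w y) :
    (1 : MvPolynomial (Fin (N + 1)) k) ∉ Ideal.span FF := by
  apply not_mem_of_val hy
  unfold val
  rw [map_one, map_one]
  exact one_ne_zero

/-- **One proper closed subset and uniform bounds.** -/
theorem pseudo [IsAlgClosed k] [Countable k] (hFF : ∀ G ∈ FF, IsForm G)
    (hy : FunField ((Ideal.span FF).map (MvPolynomial.map (algebraMap k ℂ))) 1 F w y)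
    (hw : 0 < w) (hGT : GeneralType ℂ F w) (T : Fin M → MvPolynomial (Fin M) k)
    (ψ : Fin (N + 1) → MvPolynomial (Fin M) k) (J : Ideal (MvPolynomial (Fin M) k)) :
    PUnif FF T ψ J := by
  have hone : IsForm (1 : MvPolynomial (Fin (N + 1)) k) := ⟨0, isHomogeneous_one _ _⟩
  refine IsNoetherian.induction (P := PUnif FF T ψ)
    (fun (J : Ideal (MvPolynomial (Fin M) k)) ih => ?_) J
  by_cases hJ : J.IsPrime
  · obtain ⟨v0, hv0⟩ := exists_generic J hJ
    have hz : ∀ {L : Type} [Field L] [Algebra k L] {v : Fin M → L}, (∀ g ∈ J, aeval v g = 0) →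
        ∀ g : MvPolynomial (Fin M) k, aeval v0 g = 0 → aeval v g = 0 :=
      fun hv g hg => hv g ((hv0 g).1 hg)
    by_cases h1 : ∃ m, along T ψ v0 m = 0
    · obtain ⟨m, hm⟩ := h1
      refine ⟨1, hone, one_not_mem hy, m, 0, 1, one_pos, fun L _ _ v hv hoff => ?_⟩
      exfalso
      apply (hoff m le_rfl).ne
      funext j
      rw [← aeval_univ]
      refine hz hv _ ?_
      rw [aeval_univ, hm]
      rfl
    by_cases h2 : ∃ m, ∃ H ∈ FF, aeval (along T ψ v0 m) H ≠ 0
    · obtain ⟨m, H, hH, hne⟩ := h2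
      rw [aeval_along] at hne
      obtain ⟨G, hG, hG0, s, m0, p, hp, h3⟩ := ih (J ⊔ Ideal.span {aeval (univ T ψ m) H})
        (lt_sup fun h4 => hne ((hv0 _).2 h4))
      refine ⟨G, hG, hG0, max m s, m0, p, hp, fun L _ _ v hv hoff => h3 L v (sup_zero hv ?_)
        fun m' hm' => hoff m' (hm'.trans (le_max_right _ _))⟩
      rw [← aeval_along]
      exact ((offZ_iff hFF hG).1 (hoff m (le_max_left _ _))).2.1 H hH
    by_cases h3 : ∃ m, ∃ G, IsForm G ∧ G ∉ Ideal.span FF ∧ aeval (along T ψ v0 m) G = 0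
    · obtain ⟨m, G, hG, hG0, hm⟩ := h3
      refine ⟨G, hG, hG0, m, 0, 1, one_pos, fun L _ _ v hv hoff => ?_⟩
      exfalso
      apply ((offZ_iff hFF hG).1 (hoff m le_rfl)).2.2
      rw [aeval_along]
      refine hz hv _ ?_
      rw [← aeval_along]
      exact hm
    push Not at h1 h2 h3
    obtain ⟨p, m0, hp, hper⟩ := key hJ (T := T) hFF hy hw hGT (ψ := ψ) (by
      intro m G hG
      constructor
      · intro h4
        by_contra h5
        apply h3 m G hG h5
        rw [aeval_along]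
        exact (hv0 _).2 h4
      · intro h4
        rw [← hv0, ← aeval_along]
        have h5 : Ideal.span FF ≤ RingHom.ker
            (aeval (along T ψ v0 m) : MvPolynomial (Fin (N + 1)) k →ₐ[k] ℂ) :=
          Ideal.span_le.2 fun H hH => h2 m H hH
        exact h5 h4)
    have hper' : ∀ m, m0 ≤ m → ∀ i j, along T ψ v0 (m + p) i * along T ψ v0 m j =
        along T ψ v0 (m + p) j * along T ψ v0 m i := by
      intro m hm i j
      have h4 := (hv0 _).2 (hper m hm i j)
      rw [map_sub, map_mul, map_mul, aeval_univ, aeval_univ, aeval_univ, aeval_univ] at h4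
      exact sub_eq_zero.1 h4
    have h4 : ∀ q m, m0 ≤ m → ∀ i j, along T ψ v0 (m + p * q) i * along T ψ v0 m j =
        along T ψ v0 (m + p * q) j * along T ψ v0 m i := by
      intro q
      induction q with
      | zero =>
        intro m _ i j
        rw [mul_zero, add_zero, mul_comm]
      | succ q ihq =>
        intro m hm i j
        have h5 := hper' (m + p * q) (by omega)
        have h6 : m + p * (q + 1) = m + p * q + p := by ring
        rw [h6]
        exact cross_trans (h1 (m + p * q)) h5 (ihq m hm) i j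
    have h5 : ∀ m n, m0 ≤ m → m ≤ n → m ≡ n [MOD p] → ∀ i j,
        along T ψ v0 n i * along T ψ v0 m j = along T ψ v0 n j * along T ψ v0 m i := by
      intro m n hm hmn hmod i j
      obtain ⟨q, hq⟩ := (Nat.modEq_iff_dvd' hmn).1 hmod
      have h6 : n = m + p * q := by omega
      rw [h6]
      exact h4 q m hm i j
    refine ⟨1, hone, one_not_mem hy, 0, m0, p, hp, fun L _ _ v hv _ m n hm hn hmod i j => ?_⟩
    have h6 : along T ψ v0 m i * along T ψ v0 n j = along T ψ v0 m j * along T ψ v0 n i := by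
      rcases le_total m n with h7 | h7
      · have h8 := h5 m n hm h7 hmod i j
        linear_combination -h8
      · exact h5 n m hn h7 hmod.symm i j
    have h7 := hz hv (univ T ψ m i * univ T ψ n j - univ T ψ m j * univ T ψ n i) (by
      rw [map_sub, map_mul, map_mul, aeval_univ, aeval_univ, aeval_univ, aeval_univ, h6, sub_self])
    rw [map_sub, map_mul, map_mul, aeval_univ, aeval_univ, aeval_univ, aeval_univ] at h7
    exact sub_eq_zero.1 h7
  · by_cases hT : J = ⊤
    · refine ⟨1, hone, one_not_mem hy, 0, 0, 1, one_pos, fun L _ _ v hv => ?_⟩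
      have h1 := hv 1 (by rw [hT]; trivial)
      rw [map_one] at h1
      exact absurd h1 one_ne_zero
    · have h1 : ∃ a b, a * b ∈ J ∧ a ∉ J ∧ b ∉ J := by
        by_contra hcon
        push Not at hcon
        refine hJ ⟨hT, fun {a b} hab => ?_⟩
        by_cases ha : a ∈ J
        · exact Or.inl ha
        · exact Or.inr (hcon a b hab ha)
      obtain ⟨a, b, hab, ha, hb⟩ := h1
      obtain ⟨G1, hG1, hG10, h2⟩ := ih _ (lt_sup ha)
      obtain ⟨G2, hG2, hG20, h3⟩ := ih _ (lt_sup hb)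
      obtain ⟨s1, m1, p1, hp1, h2⟩ := Unif.mono hFF hG1 (form_mul hG1 hG2) (dvd_mul_right G1 G2) h2
      obtain ⟨s2, m2, p2, hp2, h3⟩ := Unif.mono hFF hG2 (form_mul hG1 hG2) (dvd_mul_left G2 G1) h3
      refine ⟨G1 * G2, form_mul hG1 hG2, mul_not_mem hy hG1 hG2 hG10 hG20, max s1 s2, max m1 m2,
        p1 * p2, Nat.mul_pos hp1 hp2, fun L _ _ v hv hoff m n hm hn hmod => ?_⟩
      have h4 := hv _ hab
      rw [map_mul] at h4
      rcases mul_eq_zero.1 h4 with h5 | h5
      · exact h2 L v (sup_zero hv h5) (fun m' hm' => hoff m' (hm'.trans (le_max_left _ _))) m n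
          ((le_max_left _ _).trans hm) ((le_max_left _ _).trans hn) (hmod.of_mul_right _)
      · exact h3 L v (sup_zero hv h5) (fun m' hm' => hoff m' (hm'.trans (le_max_right _ _))) m n
          ((le_max_right _ _).trans hm) ((le_max_right _ _).trans hn) (hmod.of_mul_left _)

theorem prod_form (hy : FunField ((Ideal.span FF).map
    (MvPolynomial.map (algebraMap k ℂ))) 1 F w y) {s : ℕ}
    {G : Fin s → MvPolynomial (Fin (N + 1)) k} (hG : ∀ a, IsForm (G a) ∧ G a ∉ Ideal.span FF)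
    (A : Finset (Fin s)) : IsForm (∏ a ∈ A, G a) ∧ ∏ a ∈ A, G a ∉ Ideal.span FF := by
  classical
  induction A using Finset.induction_on with
  | empty =>
    rw [Finset.prod_empty]
    exact ⟨⟨0, isHomogeneous_one _ _⟩, one_not_mem hy⟩
  | insert a A ha ih =>
    rw [Finset.prod_insert ha]
    exact ⟨form_mul (hG a).1 ih.1, mul_not_mem hy (hG a).1 ih.1 (hG a).2 ih.2⟩

/-- commuting maps -/
theorem pseudo_multi [IsAlgClosed k] [Countable k] (hFF : ∀ G ∈ FF, IsForm G)
    (hy : FunField ((Ideal.span FF).map (MvPolynomial.map (algebraMap k ℂ))) 1 F w y)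
    (hw : 0 < w) (hGT : GeneralType ℂ F w) {s : ℕ} (T : Fin s → Fin M → MvPolynomial (Fin M) k)
    (ψ : Fin (N + 1) → MvPolynomial (Fin M) k) :
    ∃ G : MvPolynomial (Fin (N + 1)) k, IsForm G ∧ G ∉ Ideal.span FF ∧ ∃ B : ℕ,
      ∀ (L : Type) [Field L] [Algebra k L] (u : (Fin s → ℕ) → Fin M → L),
      (∀ n a, u (n + Pi.single a 1) = fun i => aeval (u n) (T a i)) →
      (∀ n, OffZ (Ideal.span FF) (Ideal.span {G}) fun j => aeval (u n) (ψ j)) →
      ∃ S : Finset (Fin (N + 1) → L), S.card ≤ B ∧ (∀ v ∈ S, v ≠ 0) ∧ ∀ n, ∃ v ∈ S,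
        ∀ i j, aeval (u n) (ψ i) * v j = aeval (u n) (ψ j) * v i := by
  choose G hG hG0 hU using fun a => pseudo hFF hy hw hGT (T a) ψ ⊥
  have h1 := prod_form hy (fun a => ⟨hG a, hG0 a⟩) Finset.univ
  obtain ⟨m0, p, hp, h2⟩ := multi_of T ψ fun a => (hU a).mono hFF (hG a) h1.1
    (Finset.dvd_prod_of_mem G (Finset.mem_univ a))
  exact ⟨_, h1.1, h1.2, (m0 + p) ^ s, fun L _ _ u hu hoff =>
    multi_count hp (fun n => (hoff n).ne) (h2 L u hu hoff)⟩

/-- linear recurrences with polynomial coefficients -/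
theorem pseudo_rec [IsAlgClosed k] [Countable k] (hFF : ∀ G ∈ FF, IsForm G)
    (hy : FunField ((Ideal.span FF).map (MvPolynomial.map (algebraMap k ℂ))) 1 F w y)
    (hw : 0 < w) (hGT : GeneralType ℂ F w) (r e : ℕ) :
    ∃ G : MvPolynomial (Fin (N + 1)) k, IsForm G ∧ G ∉ Ideal.span FF ∧ ∃ B : ℕ,
      ∀ (L : Type) [Field L] [Algebra k L] (x : ℕ → Fin (N + 1) → L), PolyRec r e x →
      (∀ m, OffZ (Ideal.span FF) (Ideal.span {G}) (x m)) →
      ∃ S : Finset (Fin (N + 1) → L), S.card ≤ B ∧ (∀ v ∈ S, v ≠ 0) ∧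
        ∀ m, ∃ v ∈ S, ∀ i j, x m i * v j = x m j * v i := by
  obtain ⟨M, ⟨eq⟩⟩ := Finite.exists_equiv_fin (Vars N r e)
  obtain ⟨G, hG, hG0, hU⟩ := pseudo hFF hy hw hGT
    (fun i' => rename eq (TR k N r e (eq.symm i'))) (fun j => rename eq (psiR k N r e j)) ⊥
  have hk0 : CharZero k := (algebraMap k ℂ).charZero
  exact ⟨G, hG, hG0, few_points_of r e (all_of (TR k N r e) (psiR k N r e) eq hU)⟩

end

end Pool.Agent.Q13.UN
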