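import Pool.Agent.Q13.UN.Pseudo

/-!
All polynomial maps of bounded degree, over all fields, at the same time.
-/

set_option autoImplicit false

namespace Pool.Agent.Q13.UN

open MvPolynomial Pool.Agent.TH143.HE Pool.Agent.TH143.GT Pool.Agent.W602.GT Pool.Agent.Q13.KO
  Pool.Agent.Q13.DS

variable {k : Type} [Field k] {M N s d : ℕ}

/-- the variables: the coefficients of `s` maps and of the tuple, and the point -/
abbrev UV (s M N d : ℕ) : Type :=
  (Fin s × Fin M × (Fin M → Fin (d + 1))) ⊕ (Fin (N + 1) × (Fin M → Fin (d + 1))) ⊕ Fin M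

/-- the monomials in the coordinates of the point -/
noncomputable def mon (k : Type) [Field k] (s N : ℕ) (μ : Fin M → Fin (d + 1)) :
    MvPolynomial (UV s M N d) k := ∏ j, X (Sum.inr (Sum.inr j)) ^ (μ j : ℕ)

/-- the universal maps -/
noncomputable def TU (k : Type) [Field k] (s M N d : ℕ) (a : Fin s) :
    UV s M N d → MvPolynomial (UV s M N d) k
  | Sum.inl z => X (Sum.inl z)
  | Sum.inr (Sum.inl z) => X (Sum.inr (Sum.inl z))
  | Sum.inr (Sum.inr i) => ∑ μ, X (Sum.inl (a, i, μ)) * mon k s N μ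

/-- the universal tuple -/
noncomputable def PU (k : Type) [Field k] (s M N d : ℕ) (j : Fin (N + 1)) :
    MvPolynomial (UV s M N d) k := ∑ μ, X (Sum.inr (Sum.inl (j, μ))) * mon k s N μ

/-- the exponents -/
noncomputable def expo (μ : Fin M → Fin (d + 1)) : Fin M →₀ ℕ :=
  Finsupp.equivFunOnFinite.symm fun j => (μ j : ℕ)

/-- the point of the universal space -/
noncomputable def stt {L : Type} [Field L] (d : ℕ) (T : Fin s → Fin M → MvPolynomial (Fin M) L)
    (ψ : Fin (N + 1) → MvPolynomial (Fin M) L) (v : Fin M → L) : UV s M N d → L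
  | Sum.inl (a, i, μ) => (T a i).coeff (expo μ)
  | Sum.inr (Sum.inl (j, μ)) => (ψ j).coeff (expo μ)
  | Sum.inr (Sum.inr i) => v i

theorem expo_inj : Function.Injective (expo : (Fin M → Fin (d + 1)) → Fin M →₀ ℕ) := by
  intro μ ν h
  have h1 := Finsupp.equivFunOnFinite.symm.injective h
  funext j
  exact Fin.ext (congrFun h1 j)

theorem sum_mon {L : Type} [Field L] {P : MvPolynomial (Fin M) L} (hP : ∀ j, P.degreeOf j ≤ d)
    (v : Fin M → L) : ∑ μ : Fin M → Fin (d + 1), P.coeff (expo μ) * ∏ j, v j ^ (μ j : ℕ) =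
      eval v P := by
  classical
  rw [eval_eq']
  have h1 : ∑ μ : Fin M → Fin (d + 1), P.coeff (expo μ) * ∏ j, v j ^ (μ j : ℕ) =
      ∑ e ∈ (Finset.univ : Finset (Fin M → Fin (d + 1))).image expo,
        P.coeff e * ∏ j, v j ^ e j := by
    rw [Finset.sum_image fun μ _ ν _ h => expo_inj h]
    rfl
  rw [h1]
  symm
  refine Finset.sum_subset (fun e he => ?_) fun e _ he => ?_
  · refine Finset.mem_image.2 ⟨fun j => ⟨e j, Nat.lt_succ_of_le
      ((monomial_le_degreeOf j he).trans (hP j))⟩, Finset.mem_univ _, ?_⟩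
    ext j
    rfl
  · rw [notMem_support_iff.1 he, zero_mul]

section

variable {L : Type} [Field L] [Algebra k L] {T : Fin s → Fin M → MvPolynomial (Fin M) L}
  {ψ : Fin (N + 1) → MvPolynomial (Fin M) L}

theorem aeval_mon (v : UV s M N d → L) (μ : Fin M → Fin (d + 1)) :
    aeval v (mon k s N μ) = ∏ j, v (Sum.inr (Sum.inr j)) ^ (μ j : ℕ) := by
  rw [mon, map_prod]
  refine Finset.prod_congr rfl fun j _ => ?_
  rw [map_pow, aeval_X]

theorem aeval_TU (hT : ∀ a i j, (T a i).degreeOf j ≤ d) (v : Fin M → L) (a : Fin s)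
    (z : UV s M N d) : aeval (stt d T ψ v) (TU k s M N d a z) =
      stt d T ψ (fun i => aeval v (T a i)) z := by
  rcases z with z | z | i
  · change aeval (stt d T ψ v) (X (Sum.inl z)) = _
    rw [aeval_X]
    rfl
  · change aeval (stt d T ψ v) (X (Sum.inr (Sum.inl z))) = _
    rw [aeval_X]
    rfl
  · change aeval (stt d T ψ v) (∑ μ, X (Sum.inl (a, i, μ)) * mon k s N μ) = aeval v (T a i)
    rw [map_sum, MvPolynomial.aeval_eq_eval, ← sum_mon (hT a i)]
    refine Finset.sum_congr rfl fun μ _ => ?_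
    rw [map_mul, aeval_X, aeval_mon]
    rfl

theorem orb_TU (hT : ∀ a i j, (T a i).degreeOf j ≤ d) (v : Fin M → L) (a : Fin s) (m : ℕ) :
    orb (TU k s M N d a) (stt d T ψ v) m = stt d T ψ (orb (T a) v m) := by
  induction m with
  | zero => rfl
  | succ m ih =>
    funext z
    change aeval (orb (TU k s M N d a) (stt d T ψ v) m) (TU k s M N d a z) = _
    rw [ih, aeval_TU hT]
    rfl

theorem aeval_PU (hψ : ∀ i j, (ψ i).degreeOf j ≤ d) (v : Fin M → L) (j : Fin (N + 1)) :
    aeval (stt d T ψ v) (PU k s M N d j) = aeval v (ψ j) := by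
  rw [PU, map_sum, MvPolynomial.aeval_eq_eval, ← sum_mon (hψ j)]
  refine Finset.sum_congr rfl fun μ _ => ?_
  rw [map_mul, aeval_X, aeval_mon]
  rfl

theorem along_TU (hT : ∀ a i j, (T a i).degreeOf j ≤ d) (hψ : ∀ i j, (ψ i).degreeOf j ≤ d)
    (v : Fin M → L) (a : Fin s) (m : ℕ) :
    along (TU k s M N d a) (PU k s M N d) (stt d T ψ v) m = along (T a) ψ v m := by
  funext j
  change aeval (orb (TU k s M N d a) (stt d T ψ v) m) (PU k s M N d j) = _
  rw [orb_TU hT, aeval_PU hψ]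
  rfl

end

/-- uniform bounds for the universal maps give uniform bounds for all maps -/
theorem univ_one {I I' : Ideal (MvPolynomial (Fin (N + 1)) k)} (M d : ℕ)
    (h : ∃ t m0 p : ℕ, 0 < p ∧ ∀ (L : Type) [Field L] [Algebra k L] (v : UV 1 M N d → L),
      (∀ m ≤ t, OffZ I I' (along (TU k 1 M N d 0) (PU k 1 M N d) v m)) →
        ∀ m n, m0 ≤ m → m0 ≤ n → m ≡ n [MOD p] → ∀ i j,
          along (TU k 1 M N d 0) (PU k 1 M N d) v m i * along (TU k 1 M N d 0) (PU k 1 M N d) v n j =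
          along (TU k 1 M N d 0) (PU k 1 M N d) v m j *
            along (TU k 1 M N d 0) (PU k 1 M N d) v n i) :
    ∃ t m0 p : ℕ, 0 < p ∧ ∀ (L : Type) [Field L] [Algebra k L]
      (T : Fin M → MvPolynomial (Fin M) L) (ψ : Fin (N + 1) → MvPolynomial (Fin M) L)
      (v : Fin M → L), (∀ i j, (T i).degreeOf j ≤ d) → (∀ i j, (ψ i).degreeOf j ≤ d) →
      (∀ m ≤ t, OffZ I I' (along T ψ v m)) →
        ∀ m n, m0 ≤ m → m0 ≤ n → m ≡ n [MOD p] →
          ∀ i j, along T ψ v m i * along T ψ v n j = along T ψ v m j * along T ψ v n i := by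
  obtain ⟨t, m0, p, hp, h1⟩ := h
  refine ⟨t, m0, p, hp, fun L _ _ T ψ v hT hψ hoff => ?_⟩
  have h2 : ∀ m, along (TU k 1 M N d 0) (PU k 1 M N d) (stt d (fun _ : Fin 1 => T) ψ v) m =
      along T ψ v m := fun m => along_TU (fun _ => hT) hψ v 0 m
  have h3 := h1 L (stt d (fun _ : Fin 1 => T) ψ v) fun m hm => by
    rw [h2]
    exact hoff m hm
  intro m n hm hn hmod i j
  have h4 := h3 m n hm hn hmod i j
  rwa [h2, h2] at h4

/-- the same for commuting maps -/
theorem univ_multi {I I' : Ideal (MvPolynomial (Fin (N + 1)) k)} (M s d : ℕ)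
    (h : ∀ a, ∃ t m0 p : ℕ, 0 < p ∧ ∀ (L : Type) [Field L] [Algebra k L] (v : UV s M N d → L),
      (∀ m ≤ t, OffZ I I' (along (TU k s M N d a) (PU k s M N d) v m)) →
        ∀ m n, m0 ≤ m → m0 ≤ n → m ≡ n [MOD p] → ∀ i j,
          along (TU k s M N d a) (PU k s M N d) v m i * along (TU k s M N d a) (PU k s M N d) v n j =
          along (TU k s M N d a) (PU k s M N d) v m j *
            along (TU k s M N d a) (PU k s M N d) v n i) :
    ∃ B : ℕ, ∀ (L : Type) [Field L] [Algebra k L] (T : Fin s → Fin M → MvPolynomial (Fin M) L)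
      (ψ : Fin (N + 1) → MvPolynomial (Fin M) L) (u : (Fin s → ℕ) → Fin M → L),
      (∀ a i j, (T a i).degreeOf j ≤ d) → (∀ i j, (ψ i).degreeOf j ≤ d) →
      (∀ n a, u (n + Pi.single a 1) = fun i => aeval (u n) (T a i)) →
      (∀ n, OffZ I I' fun j => aeval (u n) (ψ j)) →
      ∃ S : Finset (Fin (N + 1) → L), S.card ≤ B ∧ (∀ v ∈ S, v ≠ 0) ∧ ∀ n, ∃ v ∈ S,
        ∀ i j, aeval (u n) (ψ i) * v j = aeval (u n) (ψ j) * v i := by
  obtain ⟨m0, p, hp, h1⟩ := multi_gen (TU k s M N d) (PU k s M N d) h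
  refine ⟨(m0 + p) ^ s, fun L _ _ T ψ u hT hψ hu hoff => ?_⟩
  refine multi_count hp (fun n => (hoff n).ne) ?_
  have h2 := h1 L (fun n => stt d T ψ (u n)) (fun n a => by
    rw [hu]
    funext z
    exact (aeval_TU hT (u n) a z).symm) (fun n => by
    have h3 : (fun j => aeval (stt d T ψ (u n)) (PU k s M N d j)) = fun j => aeval (u n) (ψ j) :=
      funext fun j => aeval_PU hψ (u n) j
    rw [h3]
    exact hoff n)
  intro n n' hn i j
  have h3 := h2 n n' hn i j
  rwa [aeval_PU hψ, aeval_PU hψ, aeval_PU hψ, aeval_PU hψ] at h3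

end Pool.Agent.Q13.UN
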